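import Mathlib

/-!
Arithmetic functions used by the algorithm.
-/

namespace Pool.Agent.P.MP_d7de43_lc

open Finset

/-- modular power -/
def pw (b e d : ℕ) : ℕ := b ^ e % max d 1

theorem pw_eq {d : ℕ} (hd : 0 < d) (b e : ℕ) : pw b e d = b ^ e % d := by
  rw [pw, max_eq_left hd]

theorem pw_cast {d : ℕ} (hd : 0 < d) (b e : ℕ) : ((pw b e d : ℕ) : ZMod d) = (b : ZMod d) ^ e := by
  rw [pw_eq hd]; simp

/-- the tiny positive rational number -/
def rho (L T : ℕ) : ℚ := (L.factorial : ℚ) ^ 2 / ∏ j ∈ range (L + 1), ((T + j : ℕ) : ℚ)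

/-- the numerator attached to a tuple -/
def uu (L T α j p i ω₁ ω₂ : ℕ) : ℕ :=
  pw (p - 1) (j + (L - i)) p * α * pw ((T + j) / p) (p - 2) p * pw i L p *
    (pw ω₁ (p - 1 - i) p * pw (ω₁ + 1) L p) * (pw ω₂ (p - 1 - j) p * pw (ω₂ + 1) L p) % p

/-- Lehmann's primality test with the bases `as` -/
def test (d : ℕ) (as : List ℕ) : Bool :=
  d % 2 == 1 &&
    as.all (fun a => a % d == 0 || pw a (d / 2) d == 1 || pw a (d / 2) d == d - 1) &&
    as.any (fun a => pw a (d / 2) d == d - 1)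

end Pool.Agent.P.MP_d7de43_lc
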