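import Pool.Agent.P.MP_d7de43_lc.Oracle

/-!
Counting lemmas: strings as numbers, digits, greedy search.
-/

namespace Pool.Agent.P.MP_d7de43_lc

open Pool.Agent.Lib.Helper47 Finset

theorem msb_append_singleton (l : List Bool) (b : Bool) (k : ℕ) :
    msb (l ++ [b]) k = 2 * msb l k + b.toNat := by
  simp [msb, List.foldl_append, Nat.bit_val]

theorem msb_lt_pow (l : List Bool) : msb l 0 < 2 ^ l.length := by
  simpa using PT.msb_lt l 0

theorem msb_inj : ∀ (m : ℕ) (u v : List Bool), u.length = m → v.length = m →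
    msb u 0 = msb v 0 → u = v := by
  intro m
  induction m with
  | zero =>
    intro u v hu hv _
    rw [List.length_eq_zero_iff] at hu hv
    rw [hu, hv]
  | succ m ih =>
    intro u v hu hv h
    obtain ⟨u', a, rfl⟩ : ∃ u' a, u = u' ++ [a] :=
      ⟨u.dropLast, u.getLast (by rintro rfl; simp at hu), (List.dropLast_append_getLast _).symm⟩
    obtain ⟨v', b, rfl⟩ : ∃ v' b, v = v' ++ [b] :=
      ⟨v.dropLast, v.getLast (by rintro rfl; simp at hv), (List.dropLast_append_getLast _).symm⟩
    rw [msb_append_singleton, msb_append_singleton] at h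
    simp only [List.length_append, List.length_singleton, Nat.add_right_cancel_iff] at hu hv
    have hab : a = b := by cases a <;> cases b <;> simp at h ⊢ <;> omega
    subst hab
    rw [ih u' v' hu hv (by omega)]

theorem msb_surj : ∀ (m n : ℕ), n < 2 ^ m → ∃ u : List Bool, u.length = m ∧ msb u 0 = n := by
  intro m
  induction m with
  | zero => intro n hn; exact ⟨[], rfl, by simp at hn; simp [msb, hn]⟩
  | succ m ih =>
    intro n hn
    obtain ⟨u, hu, e⟩ := ih (n / 2) (by rw [pow_succ] at hn; omega)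
    refine ⟨u ++ [decide (n % 2 = 1)], by simp [hu], ?_⟩
    rw [msb_append_singleton, e]
    rcases Nat.mod_two_eq_zero_or_one n with h | h <;> simp [h] <;> omega

theorem cnt_msb (m : ℕ) (P : List Bool → Prop) (Q : ℕ → Prop) [DecidablePred Q]
    (h : ∀ w, w.length = m → (P w ↔ Q (msb w 0))) :
    cnt m P = ((range (2 ^ m)).filter Q).card := by
  rw [cnt, ← Set.ncard_coe_finset]
  refine Set.ncard_congr (fun w _ => msb w 0) ?_ ?_ ?_
  · rintro w ⟨h1, h2⟩
    simp only [coe_filter, mem_range, Set.mem_ofPred_eq]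
    exact ⟨h1 ▸ msb_lt_pow w, (h w h1).1 h2⟩
  · rintro u v ⟨h1, -⟩ ⟨h2, -⟩ e
    exact msb_inj m u v h1 h2 e
  · intro n hn
    simp only [coe_filter, mem_range, Set.mem_ofPred_eq] at hn
    obtain ⟨u, hu, e⟩ := msb_surj m n hn.1
    exact ⟨u, ⟨hu, (h u hu).2 (e ▸ hn.2)⟩, e⟩

theorem sum_range_mul {M : Type*} [AddCommMonoid M] (a b : ℕ) (f : ℕ → ℕ → M) :
    ∑ n ∈ range (a * b), f (n % a) (n / a) = ∑ x ∈ range a, ∑ y ∈ range b, f x y := by
  induction b with
  | zero => simp
  | succ b ih =>
    rw [mul_add, mul_one, sum_range_add, ih]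
    simp only [sum_range_succ, sum_add_distrib]
    congr 1
    refine sum_congr rfl (fun x hx => ?_)
    have hx := mem_range.1 hx
    rw [Nat.mul_add_mod, Nat.mod_eq_of_lt hx, Nat.mul_add_div (by omega), Nat.div_eq_of_lt hx,
      add_zero]

/-- the lowest `m` digits of `n` in base `H` -/
def digits (H m n : ℕ) : List ℕ := (List.range m).map (fun i => n / H ^ i % H)

theorem digits_succ (H m n : ℕ) : digits H (m + 1) n = n % H :: digits H m (n / H) := by
  simp only [digits, List.range_succ_eq_map, List.map_cons, List.map_map, pow_zero, Nat.div_one]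
  congr 1
  refine List.map_congr_left (fun i _ => ?_)
  simp only [Function.comp, Nat.succ_eq_add_one]
  rw [Nat.div_div_eq_div_mul, pow_succ']

theorem length_digits (H m n : ℕ) : (digits H m n).length = m := by simp [digits]

theorem digits_lt {H : ℕ} (hH : 0 < H) (m n : ℕ) : ∀ a ∈ digits H m n, a < H := by
  intro a ha
  simp only [digits, List.mem_map] at ha
  obtain ⟨i, -, rfl⟩ := ha
  exact Nat.mod_lt _ hH

theorem card_all_digits (H m : ℕ) (S : Finset ℕ) :
    ((range (H ^ m)).filter (fun n => ∀ a ∈ digits H m n, a ∈ S)).card ≤ S.card ^ m := by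
  induction m with
  | zero => simp [digits]
  | succ m ih =>
    rw [card_filter, pow_succ', pow_succ']
    calc _ = ∑ x ∈ range H, ∑ y ∈ range (H ^ m),
          (if x ∈ S ∧ ∀ a ∈ digits H m y, a ∈ S then 1 else 0) := by
          rw [← sum_range_mul]
          refine sum_congr rfl (fun n _ => ?_)
          simp [digits_succ]
      _ ≤ ∑ x ∈ range H, if x ∈ S then S.card ^ m else 0 := by
          refine sum_le_sum (fun x _ => ?_)
          by_cases hx : x ∈ S
          · simp only [hx, true_and, if_true]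
            rw [← card_filter]; exact ih
          · simp [hx]
      _ = ((range H).filter (· ∈ S)).card * S.card ^ m := by
          rw [← sum_filter, sum_const, smul_eq_mul]
      _ ≤ S.card * S.card ^ m :=
          Nat.mul_le_mul_right _ (card_le_card (fun x hx => (mem_filter.1 hx).2))

/-- union bound -/
theorem union_bound {ι : Type*} (I : Finset ι) (S : ι → Finset ℕ) (H m : ℕ)
    (hS : ∀ i ∈ I, 4 * (S i).card ≤ 3 * H) (Bad : ℕ → Prop) [DecidablePred Bad]
    (hBad : ∀ n, Bad n → ∃ i ∈ I, ∀ a ∈ digits H m n, a ∈ S i) :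
    4 ^ m * ((range (H ^ m)).filter Bad).card ≤ I.card * (3 ^ m * H ^ m) := by
  classical
  have h1 : (range (H ^ m)).filter Bad ⊆
      I.biUnion (fun i => (range (H ^ m)).filter (fun n => ∀ a ∈ digits H m n, a ∈ S i)) := by
    intro n hn
    rw [mem_filter] at hn
    obtain ⟨i, hi, h⟩ := hBad n hn.2
    exact mem_biUnion.2 ⟨i, hi, mem_filter.2 ⟨hn.1, h⟩⟩
  have h2 := (card_le_card h1).trans card_biUnion_le
  calc 4 ^ m * ((range (H ^ m)).filter Bad).card
      ≤ 4 ^ m * ∑ i ∈ I, ((range (H ^ m)).filter (fun n => ∀ a ∈ digits H m n, a ∈ S i)).card :=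
        Nat.mul_le_mul_left _ h2
    _ ≤ ∑ i ∈ I, 3 ^ m * H ^ m := by
        rw [mul_sum]
        refine sum_le_sum (fun i hi => ?_)
        calc 4 ^ m * _ ≤ 4 ^ m * (S i).card ^ m := Nat.mul_le_mul_left _ (card_all_digits H m (S i))
          _ = (4 * (S i).card) ^ m := (mul_pow _ _ _).symm
          _ ≤ (3 * H) ^ m := Nat.pow_le_pow_left (hS i hi) _
          _ = _ := mul_pow _ _ _
    _ = _ := by rw [sum_const, smul_eq_mul]

/-- the next candidate of the greedy search -/
def cand (B : ℕ) (l : List Bool) : ℕ := (2 * msb l 0 + 1) * 2 ^ (B - 1 - l.length)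

theorem greedy_aux (G : ℕ → Bool) (B k : ℕ) (hk : k ≤ B) :
    let s := msb (loop (fun l => G (cand B l)) k) 0
    (s = 0 ∨ G (s * 2 ^ (B - k)) = true) ∧
      (s + 1 = 2 ^ k ∨ G ((s + 1) * 2 ^ (B - k)) = false) := by
  induction k with
  | zero => simp [msb]
  | succ k ih =>
    obtain ⟨h1, h2⟩ := ih (by omega)
    simp only [loop_succ, msb_append_singleton]
    set s := msb (loop (fun l => G (cand B l)) k) 0 with hs
    have e1 : cand B (loop (fun l => G (cand B l)) k) = (2 * s + 1) * 2 ^ (B - (k + 1)) := by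
      rw [cand, length_loop, ← hs]; congr 2; omega
    have e2 : 2 ^ (B - k) = 2 * 2 ^ (B - (k + 1)) := by
      rw [← pow_succ']; congr 1; omega
    rw [e1]
    cases h : G ((2 * s + 1) * 2 ^ (B - (k + 1)))
    · simp only [Bool.toNat_false, add_zero]
      refine ⟨?_, Or.inr h⟩
      rcases h1 with h1 | h1
      · left; omega
      · right; rw [← h1, e2]; congr 1; ring
    · simp only [Bool.toNat_true]
      refine ⟨Or.inr h, ?_⟩
      rcases h2 with h2 | h2
      · left; rw [pow_succ]; omega
      · right; rw [← h2, e2]; congr 1; ring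

theorem greedy (G : ℕ → Bool) (B : ℕ) :
    let s := msb (loop (fun l => G (cand B l)) B) 0
    s < 2 ^ B ∧ (s = 0 ∨ G s = true) ∧ (s + 1 = 2 ^ B ∨ G (s + 1) = false) := by
  have h := greedy_aux G B B le_rfl
  have h2 := msb_lt_pow (loop (fun l => G (cand B l)) B)
  simp only [Nat.sub_self, pow_zero, mul_one, length_loop] at h h2
  exact ⟨h2, h⟩

theorem cand_pos (B : ℕ) (l : List Bool) : 1 ≤ cand B l := Nat.mul_pos (by omega) (by positivity)

theorem cand_lt (B : ℕ) (l : List Bool) (hl : l.length < B) : cand B l < 2 ^ B := by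
  have h := msb_lt_pow l
  have e : 2 ^ B = (2 * 2 ^ l.length) * 2 ^ (B - 1 - l.length) := by
    rw [← pow_succ', ← pow_add]; congr 1; omega
  rw [cand, e]
  exact Nat.mul_lt_mul_of_pos_right (by omega) (by positivity)

theorem greedy_count (C B : ℕ) (hC : C < 2 ^ B) (G : List Bool → Bool)
    (hG : ∀ l, l.length < B → G l = decide (cand B l ≤ C)) : msb (loop G B) 0 = C := by
  rw [loop_congr B hG]
  obtain ⟨h1, h2, h3⟩ := greedy (fun τ => decide (τ ≤ C)) B
  simp only [decide_eq_true_eq, decide_eq_false_iff_not] at h2 h3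
  omega

end Pool.Agent.P.MP_d7de43_lc
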