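import Pool.Agent.Lib.Helper47.Parse
import Pool.Agent.P.MP_d7de43_lc.Count
import Pool.Agent.P.MP_d7de43_lc.Base

/-!
Straight-line programs as lists of lines; evaluation modulo a number; parsing.
-/

namespace Pool.Agent.P.MP_d7de43_lc

open Pool.Agent.Lib.Helper47

/-- the operations on integers -/
def opZ (o : ℕ) (a b : ℤ) : ℤ := if o = 0 then a + b else if o = 1 then a - b else a * b

/-- values of a raw program -/
def valsZ (P : List (List ℕ)) : List ℤ :=
  P.foldl (fun a ln => a ++ [opZ (ln.getD 2 0) (a.getD (ln.getD 0 0) 0) (a.getD (ln.getD 1 0) 0)])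
    [1]

/-- value of a raw program -/
def NZ (P : List (List ℕ)) : ℤ := (valsZ P).getD P.length 0

/-- the operations modulo `d` -/
def opM (d o a b : ℕ) : ℕ :=
  (bif o == 0 then a + b else bif o == 1 then a + (d - 1) * b else a * b) % max d 1

/-- values of a raw program modulo `d` -/
def valsM (d : ℕ) (P : List (List ℕ)) : List ℕ :=
  P.foldl (fun a ln => a ++ [opM d (ln.getD 2 0) (a.getD (ln.getD 0 0) 0)
    (a.getD (ln.getD 1 0) 0)]) [1]

/-- value of a raw program modulo `d` -/
def evalMod (P : List (List ℕ)) (d : ℕ) : ℕ := (valsM d P).getD P.length 0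

theorem getD_map_cast {α β γ : Type} {f : α → γ} {g : β → γ} {l : List α} {m : List β} {a : α}
    {b : β} (h : l.map f = m.map g) (h0 : f a = g b) (i : ℕ) : f (l.getD i a) = g (m.getD i b) := by
  rw [← List.getD_map l a f, ← List.getD_map m b g, h, h0]

theorem opM_cast {d : ℕ} (hd : 0 < d) (o : ℕ) {a b : ℕ} {a' b' : ℤ}
    (ha : (a : ZMod d) = (a' : ZMod d)) (hb : (b : ZMod d) = (b' : ZMod d)) :
    ((opM d o a b : ℕ) : ZMod d) = ((opZ o a' b' : ℤ) : ZMod d) := by
  rw [opM, max_eq_left hd, ZMod.natCast_mod, opZ]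
  have h1 : ((d - 1 : ℕ) : ZMod d) = -1 := by
    rw [Nat.cast_sub hd]; simp
  by_cases h0 : o = 0
  · simp [h0, ha, hb]
  · by_cases h1' : o = 1
    · simp [h1', ha, hb, h1, sub_eq_add_neg]
    · have e0 : (o == 0) = false := by simpa using h0
      have e1 : (o == 1) = false := by simpa using h1'
      simp [h0, h1', ha, hb, e0, e1]

theorem valsM_cast {d : ℕ} (hd : 0 < d) (P : List (List ℕ)) :
    (valsM d P).map (fun n : ℕ => (n : ZMod d)) = (valsZ P).map (fun n : ℤ => (n : ZMod d)) := by
  induction P using List.reverseRecOn with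
  | nil => simp [valsM, valsZ]
  | append_singleton P ln ih =>
    simp only [valsM, valsZ, List.foldl_append, List.foldl_cons, List.foldl_nil, List.map_append,
      List.map_cons, List.map_nil] at ih ⊢
    rw [ih]
    congr 2
    exact opM_cast hd _ (getD_map_cast ih (by simp) _) (getD_map_cast ih (by simp) _)

theorem evalMod_cast {d : ℕ} (hd : 0 < d) (P : List (List ℕ)) :
    ((evalMod P d : ℕ) : ZMod d) = ((NZ P : ℤ) : ZMod d) :=
  getD_map_cast (valsM_cast hd P) (by simp) _

theorem valsZ_bound (P : List (List ℕ)) : ∀ a ∈ valsZ P, |a| ≤ 2 ^ 2 ^ P.length := by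
  induction P using List.reverseRecOn with
  | nil => simp [valsZ]
  | append_singleton P ln ih =>
    have hg : ∀ i, |(valsZ P).getD i 0| ≤ 2 ^ 2 ^ P.length := by
      intro i
      by_cases hi : i < (valsZ P).length
      · rw [List.getD_eq_getElem _ _ hi]; exact ih _ (List.getElem_mem hi)
      · rw [List.getD_eq_default _ _ (by omega)]; positivity
    have e : valsZ (P ++ [ln]) = valsZ P ++ [opZ (ln.getD 2 0) ((valsZ P).getD (ln.getD 0 0) 0)
        ((valsZ P).getD (ln.getD 1 0) 0)] := by
      simp only [valsZ, List.foldl_append, List.foldl_cons, List.foldl_nil]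
    have h2 : (2 : ℤ) ≤ 2 ^ 2 ^ P.length := le_self_pow₀ (by norm_num) (by positivity)
    have e2 : (2 : ℤ) ^ 2 ^ (P ++ [ln]).length = 2 ^ 2 ^ P.length * 2 ^ 2 ^ P.length := by
      rw [← pow_add, List.length_append, List.length_singleton, pow_succ]; congr 1; ring
    intro a ha
    rw [e, List.mem_append, List.mem_singleton] at ha
    rw [e2]
    generalize (2 : ℤ) ^ 2 ^ P.length = X at *
    rcases ha with ha | rfl
    · have := ih a ha; nlinarith
    · have h3 := hg (ln.getD 0 0)
      have h4 := hg (ln.getD 1 0)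
      generalize (valsZ P).getD (ln.getD 0 0) 0 = u at *
      generalize (valsZ P).getD (ln.getD 1 0) 0 = v at *
      unfold opZ
      split_ifs
      · have := abs_add_le u v; nlinarith
      · have := abs_sub u v; nlinarith
      · rw [abs_mul]; exact mul_le_mul h3 h4 (abs_nonneg _) (by linarith)

theorem NZ_bound (P : List (List ℕ)) : |NZ P| ≤ 2 ^ 2 ^ P.length := by
  unfold NZ
  by_cases hi : P.length < (valsZ P).length
  · rw [List.getD_eq_getElem _ _ hi]; exact valsZ_bound P _ (List.getElem_mem hi)
  · rw [List.getD_eq_default _ _ (by omega)]; positivity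

/-- a structured program as a list of lines -/
def lines (P : List (ℕ × ℕ × Fin 3)) : List (List ℕ) := P.map fun c => [c.1, c.2.1, c.2.2.val]

theorem code_eq (P : List (ℕ × ℕ × Fin 3)) : code P = encLines (lines P) := by
  simp [code, encLines, lines, List.flatMap_map, numCode]

theorem values_eq (P : List (ℕ × ℕ × Fin 3)) : values P = valsZ (lines P) := by
  rw [values, valsZ, lines, List.foldl_map]
  congr 1
  funext a c
  obtain ⟨j, k, o⟩ := c
  fin_cases o <;> simp [applyOp, opZ]

/-- well-formedness of a raw program -/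
def okLines (P : List (List ℕ)) : Bool :=
  P.zipIdx.all fun c => c.1.length == 3 && Nat.ble (c.1.getD 0 0) c.2 &&
    Nat.ble (c.1.getD 1 0) c.2 && Nat.blt (c.1.getD 2 0) 3

/-- the string is the code of a valid program -/
def validStr (x : List Bool) : Bool := encLines (parseLines x) == x && okLines (parseLines x)

theorem okLines_iff (P : List (List ℕ)) : okLines P = true ↔ ∀ (i : ℕ) (h : i < P.length),
    P[i].length = 3 ∧ P[i].getD 0 0 ≤ i ∧ P[i].getD 1 0 ≤ i ∧ P[i].getD 2 0 < 3 := by
  simp only [okLines, List.all_eq_true, Bool.and_eq_true, beq_iff_eq, Nat.ble_eq, Nat.blt_eq,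
    and_assoc]
  constructor
  · intro h i hi
    exact h (P[i], i) (List.mk_mem_zipIdx_iff_getElem?.2 (List.getElem?_eq_getElem hi))
  · rintro h ⟨ln, i⟩ hc
    have h1 := List.mk_mem_zipIdx_iff_getElem?.1 hc
    obtain ⟨hi, rfl⟩ := List.getElem?_eq_some_iff.1 h1
    exact h i hi

theorem okLines_lines (P : List (ℕ × ℕ × Fin 3)) : okLines (lines P) = true ↔ Valid P := by
  rw [okLines_iff, Valid]
  constructor
  · intro h i
    have := h i (by simp [lines])
    simp only [lines, List.getElem_map] at this
    simpa using ⟨this.2.1, this.2.2.1⟩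
  · intro h i hi
    have hi' : i < P.length := by simpa [lines] using hi
    have := h ⟨i, hi'⟩
    simp only [lines, List.getElem_map]
    simpa using this

theorem exists_lines (P : List (List ℕ)) (h : okLines P = true) : ∃ Q, lines Q = P := by
  rw [okLines_iff] at h
  refine ⟨P.map fun ln => (ln.getD 0 0, ln.getD 1 0, ⟨ln.getD 2 0 % 3, Nat.mod_lt _ (by norm_num)⟩),
    ?_⟩
  rw [lines, List.map_map]
  refine List.ext_getElem (by simp) (fun i h1 h2 => ?_)
  obtain ⟨h3, -, -, h4⟩ := h i h2
  simp only [List.getElem_map, Function.comp, Nat.mod_eq_of_lt h4]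
  obtain ⟨a, b, c, e⟩ := List.length_eq_three.1 h3
  simp [e]

theorem mem_PosSLP (x : List Bool) :
    x ∈ PosSLP ↔ validStr x = true ∧ 0 < NZ (parseLines x) := by
  constructor
  · rintro ⟨P, hP, rfl, h⟩
    rw [validStr, code_eq, parseLines_encLines, (okLines_lines P).2 hP, NZ, ← values_eq]
    simpa [lines] using h
  · rintro ⟨h1, h2⟩
    simp only [validStr, Bool.and_eq_true, beq_iff_eq] at h1
    obtain ⟨Q, hQ⟩ := exists_lines _ h1.2
    refine ⟨Q, (okLines_lines Q).1 (hQ ▸ h1.2), by rw [code_eq, hQ, h1.1], ?_⟩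
    rw [← hQ, NZ, ← values_eq] at h2
    simpa [lines] using h2

theorem length_le_encLines (P : List (List ℕ)) : P.length ≤ (encLines P).length := by
  induction P with
  | nil => simp
  | cons ln P ih =>
    simp only [encLines, List.flatMap_cons, List.length_append, List.length_cons] at ih ⊢
    omega

theorem length_le_of_valid {x : List Bool} (h : validStr x = true) :
    (parseLines x).length ≤ x.length := by
  simp only [validStr, Bool.and_eq_true, beq_iff_eq] at h
  have := length_le_encLines (parseLines x)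
  rwa [h.1] at this

section
variable {α : Type} [Enc α]

@[fun_prop] theorem pt_parseLines {f : α → List Bool} (hf : PT f) :
    PT fun a => parseLines (f a) := PT.parseLines.comp hf

@[fun_prop] theorem pt_encLines {f : α → List (List ℕ)} (hf : PT f) :
    PT fun a => encLines (f a) := PT.encLines.comp hf

@[fun_prop] theorem pt_validStr {f : α → List Bool} (hf : PT f) : PT fun a => validStr (f a) := by
  unfold validStr okLines; fun_prop

@[fun_prop] theorem pt_opM {d o a b : α → ℕ} (hd : PT d) (ho : PT o) (ha : PT a) (hb : PT b) :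
    PT fun x => opM (d x) (o x) (a x) (b x) := by
  unfold opM; fun_prop

theorem size_mod_max (a d : ℕ) : size (a % max d 1) ≤ 4 * size (max d 1) :=
  size_nat_mono (Nat.mod_lt _ (by omega)).le

@[fun_prop] theorem pt_evalMod {P : α → List (List ℕ)} {d : α → ℕ} (hP : PT P) (hd : PT d) :
    PT fun x => evalMod (P x) (d x) := by
  have h : PT fun x => valsM (d x) (P x) := by
    have hm : PT fun x => max (d x) 1 := by fun_prop
    refine PT.foldl_add (f := fun x (a : List ℕ) (ln : List ℕ) => a ++ [opM (d x) (ln.getD 2 0)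
      (a.getD (ln.getD 0 0) 0) (a.getD (ln.getD 1 0) 0)]) (by fun_prop) hP (PT.const [1])
      (fun x => 4 * size (max (d x) 1) + 1) (((PB.const 4).mul hm.size_le).add (PB.const 1)) ?_
    intro x t ln _
    have h1 := size_append t [opM (d x) (ln.getD 2 0) (t.getD (ln.getD 0 0) 0)
      (t.getD (ln.getD 1 0) 0)]
    have h2 : size (opM (d x) (ln.getD 2 0) (t.getD (ln.getD 0 0) 0) (t.getD (ln.getD 1 0) 0)) ≤
      4 * size (max (d x) 1) := size_mod_max _ _
    simp only [size_cons, size_nil] at h1
    omega
  unfold evalMod; fun_prop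

theorem foldl_pw (b d : ℕ) (u : List Bool) (k : ℕ) :
    u.foldl (fun t c => t * t * (bif c then b else 1) % d) (b ^ k % d) = b ^ msb u k % d := by
  induction u generalizing k with
  | nil => rfl
  | cons c u ih =>
    rw [List.foldl_cons, msb_cons, ← ih]
    congr 1
    have h : b ^ k % d * (b ^ k % d) * (bif c then b else 1) ≡ b ^ k * b ^ k *
        (bif c then b else 1) [MOD d] :=
      ((Nat.mod_modEq _ _).mul (Nat.mod_modEq _ _)).mul rfl
    rw [h]
    congr 1
    cases c <;> simp [Nat.bit_val] <;> ring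

@[fun_prop] theorem pt_pw {b e d : α → ℕ} (hb : PT b) (he : PT e) (hd : PT d) :
    PT fun x => pw (b x) (e x) (d x) := by
  have hm : PT fun x => max (d x) 1 := by fun_prop
  refine (PT.foldl (f := fun x t c => t * t * (bif c then b x else 1) % max (d x) 1)
    (l := fun x => (e x).bits.reverse) (s := fun x => 1 % max (d x) 1) (by fun_prop) (by fun_prop)
    (by fun_prop) (fun x => 4 * size (max (d x) 1)) ((PB.const 4).mul hm.size_le)
    (fun x u _ => ?_)).of_eq (fun x => ?_)
  · have := foldl_pw (b x) (max (d x) 1) u 0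
    rw [pow_zero] at this
    rw [this]; exact size_mod_max _ _
  · have := foldl_pw (b x) (max (d x) 1) (e x).bits.reverse 0
    rw [pow_zero, msb_reverse_bits] at this
    exact this

@[fun_prop] theorem pt_uu {L T β j p i ω₁ ω₂ : α → ℕ} (h1 : PT L) (h2 : PT T) (h3 : PT β)
    (h4 : PT j) (h5 : PT p) (h6 : PT i) (h7 : PT ω₁) (h8 : PT ω₂) :
    PT fun x => uu (L x) (T x) (β x) (j x) (p x) (i x) (ω₁ x) (ω₂ x) := by
  unfold uu; fun_prop

@[fun_prop] theorem pt_test {d : α → ℕ} {l : α → List ℕ} (hd : PT d) (hl : PT l) :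
    PT fun x => test (d x) (l x) := by
  unfold test; fun_prop

end

end Pool.Agent.P.MP_d7de43_lc
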