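import Pool.Agent.P.MP_d7de43_lc.Base

/-!
The fractional part of `A * rho L T` as one sum of fractions with prime denominators.
-/

namespace Pool.Agent.P.MP_d7de43_lc

open Finset

theorem nt_pf (L : ℕ) : ∀ T : ℕ, 1 ≤ T →
    (L.factorial : ℚ) / ∏ j ∈ range (L + 1), ((T + j : ℕ) : ℚ) =
      ∑ j ∈ range (L + 1), (L.choose j : ℚ) * ((-1) ^ j / ((T + j : ℕ) : ℚ)) := by
  induction L with
  | zero => intro T _; simp
  | succ L ih =>
    intro T hT
    have h1 := ih T hT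
    have h2 := ih (T + 1) (by omega)
    have h3 := Finset.sum_choose_succ_mul (R := ℚ)
      (fun i _ => ((-1 : ℚ) ^ i / ((T + i : ℕ) : ℚ))) L
    rw [h3, ← h1]
    have h4 : ∑ i ∈ range (L + 1), (L.choose i : ℚ) * ((-1 : ℚ) ^ (i + 1) / ((T + (i + 1) : ℕ) : ℚ))
        = - ∑ j ∈ range (L + 1), (L.choose j : ℚ) * ((-1) ^ j / ((T + 1 + j : ℕ) : ℚ)) := by
      rw [← Finset.sum_neg_distrib]
      refine Finset.sum_congr rfl fun i _ => ?_
      have : T + (i + 1) = T + 1 + i := by omega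
      rw [this, pow_succ]; ring
    rw [h4, ← h2]
    have hP : 0 < ∏ j ∈ range L, ((T + 1 + j : ℕ) : ℚ) :=
      Finset.prod_pos fun j _ => by positivity
    have e1 : ∏ j ∈ range (L + 1), ((T + j : ℕ) : ℚ) =
        (∏ j ∈ range L, ((T + 1 + j : ℕ) : ℚ)) * T := by
      rw [Finset.prod_range_succ']
      congr 1
      refine Finset.prod_congr rfl fun i _ => ?_
      have : T + (i + 1) = T + 1 + i := by omega
      rw [this]
    have e2 : ∏ j ∈ range (L + 1), ((T + 1 + j : ℕ) : ℚ) =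
        (∏ j ∈ range L, ((T + 1 + j : ℕ) : ℚ)) * ((T : ℚ) + 1 + L) := by
      rw [Finset.prod_range_succ]; push_cast; ring
    have e3 : ∏ j ∈ range (L + 1 + 1), ((T + j : ℕ) : ℚ) =
        (∏ j ∈ range L, ((T + 1 + j : ℕ) : ℚ)) * T * ((T : ℚ) + 1 + L) := by
      rw [Finset.prod_range_succ, e1]; push_cast; ring
    rw [e1, e2, e3, Nat.factorial_succ]
    have hT' : (0 : ℚ) < T := by exact_mod_cast hT
    have hL' : (0 : ℚ) ≤ L := by positivity
    generalize (∏ j ∈ range L, ((T + 1 + j : ℕ) : ℚ)) = P at hP ⊢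
    push_cast
    field_simp
    ring

theorem nt_pow_dvd_fact (l : ℕ) (hl : 0 < l) (e : ℕ) : l ^ e ∣ (e * l).factorial := by
  induction e with
  | zero => simp
  | succ e ih =>
    obtain ⟨l', rfl⟩ : ∃ l', l = l' + 1 := ⟨l - 1, by omega⟩
    have h1 : (e + 1) * (l' + 1) = (e * (l' + 1) + l') + 1 := by ring
    rw [h1, Nat.factorial_succ, ← h1, pow_succ, mul_comm]
    exact Nat.mul_dvd_mul (Dvd.intro_left _ rfl)
      (ih.trans (Nat.factorial_dvd_factorial (by omega)))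

theorem nt_sq_le (e : ℕ) (he : 4 ≤ e) : e ^ 2 ≤ 2 ^ e := by
  induction e, he using Nat.le_induction with
  | base => norm_num
  | succ e he ih => rw [pow_succ 2 e]; nlinarith

theorem nt_smooth (L m : ℕ) (hL6 : 6 ≤ L) (hm : 1 ≤ m) (h4 : 4 * m ≤ L ^ 2)
    (hp : ∀ l, l.Prime → l ∣ m → l ≤ L) : m ∣ L.factorial := by
  rw [Nat.dvd_iff_prime_pow_dvd_dvd]
  intro l e hl hle
  have hl2 := hl.two_le
  refine (nt_pow_dvd_fact l (by omega) e).trans (Nat.factorial_dvd_factorial ?_)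
  have hlm : l ^ e ≤ m := Nat.le_of_dvd (by omega) hle
  rcases Nat.lt_or_ge e 2 with he | he
  · interval_cases e
    · simp
    · rw [one_mul]; exact hp l hl (by simpa using hle)
  · have key : (e * l) ^ 2 ≤ 4 * l ^ e ∨ e * l ≤ 6 := by
      obtain ⟨d, rfl⟩ : ∃ d, e = d + 2 := ⟨e - 2, by omega⟩
      have hh : (d + 2) ^ 2 ≤ 4 * l ^ d ∨ (d + 2) * l ≤ 6 := by
        rcases Nat.lt_or_ge d 2 with hd | hd
        · interval_cases d
          · left; simp
          · rcases Nat.lt_or_ge l 3 with h3 | h3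
            · right; omega
            · left; simp; omega
        · left
          have h1 := nt_sq_le (d + 2) (by omega)
          have h2 : 2 ^ d ≤ l ^ d := Nat.pow_le_pow_left hl2 d
          have h3 : 2 ^ (d + 2) = 4 * 2 ^ d := by rw [pow_add]; ring
          omega
      rcases hh with hh | hh
      · left
        calc ((d + 2) * l) ^ 2 = (d + 2) ^ 2 * l ^ 2 := by ring
          _ ≤ 4 * l ^ d * l ^ 2 := Nat.mul_le_mul_right _ hh
          _ = 4 * l ^ (d + 2) := by ring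
      · right; exact hh
    rcases key with key | key
    · have : (e * l) ^ 2 ≤ L ^ 2 := by omega
      exact (Nat.pow_le_pow_iff_left (by norm_num)).1 this
    · omega

theorem nt_sum_pow (p : ℕ) [Fact p.Prime] (e : ℕ) (he : 0 < e) :
    ∑ x : ZMod p, x ^ e = if p - 1 ∣ e then -1 else 0 := by
  classical
  have h := FiniteField.sum_pow_units (ZMod p) e
  rw [ZMod.card] at h
  rw [← h]
  let φ : (ZMod p)ˣ ↪ ZMod p := ⟨fun x ↦ x, Units.val_injective⟩
  have h1 : univ.map φ = univ \ {0} := by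
    ext x
    simp only [mem_map, mem_univ, Function.Embedding.coeFn_mk, true_and, mem_sdiff,
      mem_singleton, φ]
    exact isUnit_iff_ne_zero
  calc ∑ x : ZMod p, x ^ e = ∑ x ∈ univ \ {(0 : ZMod p)}, x ^ e := by
        rw [← sum_sdiff ({0} : Finset (ZMod p)).subset_univ, sum_singleton, zero_pow he.ne',
          add_zero]
    _ = ∑ x : (ZMod p)ˣ, (x ^ e : ZMod p) := by
        rw [← h1, Finset.sum_map]; rfl

theorem nt_range_sum (p : ℕ) [Fact p.Prime] (f : ZMod p → ZMod p) :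
    ∑ w ∈ range p, f (w : ZMod p) = ∑ x : ZMod p, f x := by
  have hp : p.Prime := Fact.out
  have : NeZero p := ⟨hp.ne_zero⟩
  refine Finset.sum_bij' (fun w _ => (w : ZMod p)) (fun x _ => x.val) ?_ ?_ ?_ ?_ ?_
  · intro a _; exact mem_univ _
  · intro a _; exact mem_range.2 (ZMod.val_lt a)
  · intro a ha; exact ZMod.val_cast_of_lt (mem_range.1 ha)
  · intro a _; exact ZMod.natCast_zmod_val a
  · intro a _; rfl

theorem nt_binom (p : ℕ) [Fact p.Prime] (L j : ℕ) (hj : j ≤ L) (hL : L + 2 ≤ p) :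
    ∑ w ∈ range p, (w : ZMod p) ^ (p - 1 - j) * ((w : ZMod p) + 1) ^ L
      = - (L.choose j : ZMod p) := by
  rw [nt_range_sum p (fun w => w ^ (p - 1 - j) * (w + 1) ^ L)]
  have h1 : ∀ w : ZMod p, w ^ (p - 1 - j) * (w + 1) ^ L =
      ∑ i ∈ range (L + 1), (L.choose i : ZMod p) * w ^ (p - 1 - j + i) := by
    intro w
    rw [add_pow, Finset.mul_sum]
    refine Finset.sum_congr rfl fun i _ => ?_
    rw [pow_add]; ring
  simp_rw [h1]
  rw [Finset.sum_comm]
  simp_rw [← Finset.mul_sum]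
  rw [Finset.sum_eq_single j]
  · rw [nt_sum_pow p _ (by omega), if_pos]
    · ring
    · have : p - 1 - j + j = p - 1 := by omega
      rw [this]
  · intro i hi hij
    have hi' := mem_range.1 hi
    rw [nt_sum_pow p _ (by omega), if_neg, mul_zero]
    rintro ⟨c, hc⟩
    rcases Nat.lt_or_ge c 2 with h2 | h2
    · interval_cases c <;> omega
    · have : (p - 1) * 2 ≤ (p - 1) * c := Nat.mul_le_mul_left _ h2
      omega
  · intro h; exact absurd (mem_range.2 (by omega)) h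

theorem nt_fact (R : Type*) [CommRing R] (L : ℕ) :
    ∑ i ∈ range (L + 1), (-1 : R) ^ (L - i) * (L.choose i : R) * (i : R) ^ L = L.factorial := by
  have h1 := fwdDiff_iter_eq_sum_shift (1 : R) (fun r : R => r ^ L) L 0
  rw [fwdDiff_iter_eq_factorial] at h1
  have h2 : ((L.factorial : R → R)) 0 = (L.factorial : R) := rfl
  rw [h2] at h1
  rw [h1]
  refine Finset.sum_congr rfl fun i _ => ?_
  simp

theorem nt_mod (p : ℕ) [Fact p.Prime] (L T j α : ℕ) (hj : j ≤ L) (hL : L + 2 ≤ p) :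
    ((∑ i ∈ range (L + 1), ∑ ω₁ ∈ range p, ∑ ω₂ ∈ range p, uu L T α j p i ω₁ ω₂ : ℕ) : ZMod p)
      = (α : ZMod p) * ((L.factorial : ZMod p) * (((T + j) / p : ℕ) : ZMod p) ^ (p - 2)) *
        (-1) ^ j * (L.choose j : ZMod p) := by
  have hp0 : 0 < p := by omega
  have hm1 : ((p - 1 : ℕ) : ZMod p) = -1 := by
    rw [Nat.cast_sub (by omega)]; simp
  have h1 : ∀ i ω₁ ω₂, ((uu L T α j p i ω₁ ω₂ : ℕ) : ZMod p) =
      ((-1) ^ (j + (L - i)) * (α : ZMod p) * (((T + j) / p : ℕ) : ZMod p) ^ (p - 2) *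
        (i : ZMod p) ^ L) * (((ω₁ : ZMod p) ^ (p - 1 - i) * ((ω₁ : ZMod p) + 1) ^ L) *
        ((ω₂ : ZMod p) ^ (p - 1 - j) * ((ω₂ : ZMod p) + 1) ^ L)) := by
    intro i ω₁ ω₂
    rw [uu, ZMod.natCast_mod]
    simp only [Nat.cast_mul, pw_cast hp0, hm1, Nat.cast_add, Nat.cast_one]
    ring
  rw [Nat.cast_sum, ← nt_fact (ZMod p) L, Finset.sum_mul, Finset.mul_sum, Finset.sum_mul,
    Finset.sum_mul]
  refine Finset.sum_congr rfl fun i hi => ?_
  have hi' := mem_range.1 hi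
  simp only [Nat.cast_sum, h1]
  simp_rw [← Finset.mul_sum]
  rw [← Finset.sum_mul, nt_binom p L i (by omega) hL, nt_binom p L j hj hL, pow_add]
  ring

theorem nt_ite_sum (W n : ℕ) (h : n ≤ W) (f : ℕ → ℚ) :
    ∑ i ∈ range W, (if i < n then f i else 0) = ∑ i ∈ range n, f i := by
  rw [← Finset.sum_filter]
  congr 1
  ext i
  simp only [mem_filter, mem_range]
  omega

theorem nt_term (L T W j : ℕ) (hL : Odd L) (hL6 : 6 ≤ L) (hT : 1 ≤ T)
    (hTL : 4 * (T + L) ≤ L ^ 2) (hW : L ^ 2 ≤ W) (A : ℤ) (α : ℕ → ℕ)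
    (hα : ∀ p, p.Prime → ((α p : ℕ) : ZMod p) = (A : ZMod p)) (hj : j ≤ L) :
    ∃ c : ℤ, (A : ℚ) * (L.factorial : ℚ) * ((L.choose j : ℚ) * ((-1) ^ j / ((T + j : ℕ) : ℚ)))
      = c + ∑ p ∈ range W, ∑ i ∈ range W, ∑ ω₁ ∈ range W, ∑ ω₂ ∈ range W,
        if j ≤ L ∧ i ≤ L ∧ p.Prime ∧ L < p ∧ p ∣ T + j ∧ ω₁ < p ∧ ω₂ < p then
          (uu L T (α p) j p i ω₁ ω₂ : ℚ) / p else 0 := by
  by_cases hex : ∃ p, p.Prime ∧ L < p ∧ p ∣ T + j
  · obtain ⟨p, hp, hLp, k, hk⟩ := hex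
    have : Fact p.Prime := ⟨hp⟩
    have hk0 : 0 < k := by
      rcases Nat.eq_zero_or_pos k with h | h
      · rw [h] at hk; omega
      · exact h
    have hkL : k ≤ L := by
      by_contra hc
      have : (L + 1) * (L + 1) ≤ p * k := Nat.mul_le_mul (by omega) (by omega)
      nlinarith
    have hpW : p ≤ W := by
      have : p * 1 ≤ p * k := Nat.mul_le_mul_left _ hk0
      omega
    have hpW' : p < W := by
      have : p * 1 ≤ p * k := Nat.mul_le_mul_left _ hk0
      omega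
    have hLW : L + 1 ≤ W := by omega
    have hp2 : L + 2 ≤ p := by
      have h1 : Odd p := hp.odd_of_ne_two (by omega)
      obtain ⟨a, ha⟩ := hL
      obtain ⟨b, hb⟩ := h1
      omega
    rw [Finset.sum_eq_single p]
    · have e1 : (∑ i ∈ range W, ∑ ω₁ ∈ range W, ∑ ω₂ ∈ range W,
          if j ≤ L ∧ i ≤ L ∧ p.Prime ∧ L < p ∧ p ∣ T + j ∧ ω₁ < p ∧ ω₂ < p then
            (uu L T (α p) j p i ω₁ ω₂ : ℚ) / p else 0) =
          ((∑ i ∈ range (L + 1), ∑ ω₁ ∈ range p, ∑ ω₂ ∈ range p,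
            uu L T (α p) j p i ω₁ ω₂ : ℕ) : ℚ) / p := by
        simp only [Nat.cast_sum, Finset.sum_div]
        rw [← nt_ite_sum W (L + 1) hLW]
        refine Finset.sum_congr rfl fun i _ => ?_
        by_cases hi : i < L + 1
        · rw [if_pos hi, ← nt_ite_sum W p hpW]
          refine Finset.sum_congr rfl fun ω₁ _ => ?_
          by_cases h1 : ω₁ < p
          · rw [if_pos h1, ← nt_ite_sum W p hpW]
            refine Finset.sum_congr rfl fun ω₂ _ => ?_
            by_cases h2 : ω₂ < p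
            · rw [if_pos h2, if_pos ⟨hj, by omega, hp, hLp, ⟨k, hk⟩, h1, h2⟩]
            · rw [if_neg h2, if_neg (fun h => h2 h.2.2.2.2.2.2)]
          · rw [if_neg h1]
            exact Finset.sum_eq_zero fun ω₂ _ => if_neg (fun h => h1 h.2.2.2.2.2.1)
        · rw [if_neg hi]
          exact Finset.sum_eq_zero fun ω₁ _ => Finset.sum_eq_zero fun ω₂ _ =>
            if_neg (fun h => hi (by omega))
      rw [e1]
      have hmod := nt_mod p L T j (α p) hj hp2
      generalize (∑ i ∈ range (L + 1), ∑ ω₁ ∈ range p, ∑ ω₂ ∈ range p,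
            uu L T (α p) j p i ω₁ ω₂ : ℕ) = N at hmod ⊢
      obtain ⟨q, hq⟩ : k ∣ L.factorial := Nat.dvd_factorial hk0 hkL
      have hdiv : (T + j) / p = k := by rw [hk]; exact Nat.mul_div_cancel_left k hp.pos
      have hk1 : (k : ZMod p) ≠ 0 := by
        rw [Ne, ZMod.natCast_eq_zero_iff]
        intro h
        have := Nat.le_of_dvd hk0 h
        omega
      have hk2 : (k : ZMod p) * (k : ZMod p) ^ (p - 2) = 1 := by
        rw [← pow_succ']
        have : p - 2 + 1 = p - 1 := by omega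
        rw [this]
        exact ZMod.pow_card_sub_one_eq_one hk1
      have hz : (((A * q * (-1) ^ j * (L.choose j : ℤ) - N : ℤ)) : ZMod p) = 0 := by
        push_cast
        rw [hmod, hdiv, hα p hp, hq]
        push_cast
        linear_combination (-(A : ZMod p) * q * (-1) ^ j * (L.choose j : ZMod p)) * hk2
      obtain ⟨c, hc⟩ := (ZMod.intCast_zmod_eq_zero_iff_dvd _ p).1 hz
      refine ⟨c, ?_⟩
      have hc' : (A : ℚ) * q * (-1) ^ j * (L.choose j : ℚ) - N = p * c := by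
        exact_mod_cast congrArg (fun z : ℤ => (z : ℚ)) hc
      have hpq : (0 : ℚ) < p := by exact_mod_cast hp.pos
      have hkq : (0 : ℚ) < k := by exact_mod_cast hk0
      rw [hk, hq]
      push_cast
      field_simp
      linear_combination hc'
    · intro p' _ hne
      refine Finset.sum_eq_zero fun i _ => Finset.sum_eq_zero fun ω₁ _ =>
        Finset.sum_eq_zero fun ω₂ _ => if_neg ?_
      rintro ⟨-, -, hp', hLp', hd, -, -⟩
      rw [hk] at hd
      rcases (Nat.Prime.dvd_mul hp').1 hd with h | h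
      · exact hne ((Nat.prime_dvd_prime_iff_eq hp' hp).1 h)
      · have := Nat.le_of_dvd hk0 h
        omega
    · intro h; exact absurd (mem_range.2 hpW') h
  · have hs : T + j ∣ L.factorial := by
      refine nt_smooth L (T + j) hL6 (by omega) (by omega) fun l hl hd => ?_
      by_contra hc
      exact hex ⟨l, hl, by omega, hd⟩
    obtain ⟨q, hq⟩ := hs
    refine ⟨A * q * (-1) ^ j * (L.choose j : ℤ), ?_⟩
    rw [Finset.sum_eq_zero, hq]
    · have hpos : (0 : ℚ) < ((T + j : ℕ) : ℚ) := by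
        have : 0 < T + j := by omega
        exact_mod_cast this
      rw [Nat.cast_mul]
      generalize ((T + j : ℕ) : ℚ) = m at hpos ⊢
      push_cast
      field_simp
      ring
    · intro p _
      refine Finset.sum_eq_zero fun i _ => Finset.sum_eq_zero fun ω₁ _ =>
        Finset.sum_eq_zero fun ω₂ _ => if_neg ?_
      rintro ⟨-, -, hp', hLp', hd, -, -⟩
      exact hex ⟨p, hp', hLp', hd⟩

theorem frac_identity (L T W : ℕ) (hL : Odd L) (hL6 : 6 ≤ L) (hT : 1 ≤ T)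
    (hTL : 4 * (T + L) ≤ L ^ 2) (hW : L ^ 2 ≤ W) (A : ℤ) (α : ℕ → ℕ)
    (hα : ∀ p, p.Prime → ((α p : ℕ) : ZMod p) = (A : ZMod p)) :
    ∃ c : ℤ, (A : ℚ) * rho L T = c + ∑ j ∈ range W, ∑ p ∈ range W, ∑ i ∈ range W,
      ∑ ω₁ ∈ range W, ∑ ω₂ ∈ range W,
        if j ≤ L ∧ i ≤ L ∧ p.Prime ∧ L < p ∧ p ∣ T + j ∧ ω₁ < p ∧ ω₂ < p then
          (uu L T (α p) j p i ω₁ ω₂ : ℚ) / p else 0 := by
  have h : ∀ j : ℕ, ∃ c : ℤ, j ≤ L →
      (A : ℚ) * (L.factorial : ℚ) * ((L.choose j : ℚ) * ((-1) ^ j / ((T + j : ℕ) : ℚ)))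
      = c + ∑ p ∈ range W, ∑ i ∈ range W, ∑ ω₁ ∈ range W, ∑ ω₂ ∈ range W,
        if j ≤ L ∧ i ≤ L ∧ p.Prime ∧ L < p ∧ p ∣ T + j ∧ ω₁ < p ∧ ω₂ < p then
          (uu L T (α p) j p i ω₁ ω₂ : ℚ) / p else 0 := by
    intro j
    by_cases hj : j ≤ L
    · obtain ⟨c, hc⟩ := nt_term L T W j hL hL6 hT hTL hW A α hα hj
      exact ⟨c, fun _ => hc⟩
    · exact ⟨0, fun h => absurd h hj⟩
  choose c hc using h
  refine ⟨∑ j ∈ range (L + 1), c j, ?_⟩
  have hLW : L + 1 ≤ W := by omega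
  have e1 : (A : ℚ) * rho L T = ∑ j ∈ range (L + 1),
      (A : ℚ) * (L.factorial : ℚ) * ((L.choose j : ℚ) * ((-1) ^ j / ((T + j : ℕ) : ℚ))) := by
    rw [← Finset.mul_sum, ← nt_pf L T hT, rho]; ring
  rw [e1, ← Finset.sum_subset (Finset.range_subset_range.2 hLW), Int.cast_sum,
    ← Finset.sum_add_distrib]
  · exact Finset.sum_congr rfl fun j hj => hc j (by have := mem_range.1 hj; omega)
  · intro j _ hj
    refine Finset.sum_eq_zero fun p _ => Finset.sum_eq_zero fun i _ =>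
      Finset.sum_eq_zero fun ω₁ _ => Finset.sum_eq_zero fun ω₂ _ => if_neg ?_
    rintro ⟨h1, -⟩
    exact hj (mem_range.2 (by omega))

end Pool.Agent.P.MP_d7de43_lc
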