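import Pool.Agent.P.MP_d7de43_lc.Base

/-!
Size of `rho`, and integers have few divisors in a short interval far from the origin.
-/

namespace Pool.Agent.P.MP_d7de43_lc

open Finset

theorem three_terms_le (x : ℚ) (hx : 0 ≤ x) (m : ℕ) :
    1 + m * x + m * (m - 1) / 2 * x ^ 2 ≤ (1 + x) ^ m := by
  induction m with
  | zero => simp
  | succ m ih =>
    have h1 : (0 : ℚ) ≤ (m : ℚ) * (m - 1) := by
      rcases Nat.eq_zero_or_pos m with h | h
      · simp [h]
      · have : (1 : ℚ) ≤ m := by exact_mod_cast h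
        exact mul_nonneg (by linarith) (by linarith)
    have h2 : (0 : ℚ) ≤ (m : ℚ) * (m - 1) / 2 * x ^ 3 := by positivity
    rw [pow_succ (1 + x)]
    push_cast
    calc 1 + ((m : ℚ) + 1) * x + ((m : ℚ) + 1) * ((m : ℚ) + 1 - 1) / 2 * x ^ 2
        ≤ (1 + m * x + m * (m - 1) / 2 * x ^ 2) * (1 + x) := by nlinarith
      _ ≤ (1 + x) ^ m * (1 + x) := by gcongr

theorem step_le (n : ℕ) (hn : 1 ≤ n) :
    (5 / 2 : ℚ) * (n : ℚ) ^ (n + 1) ≤ ((n : ℚ) + 1) ^ (n + 1) := by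
  have hn' : (1 : ℚ) ≤ n := by exact_mod_cast hn
  have hpos : (0 : ℚ) < n := by linarith
  have h := three_terms_le (1 / n) (by positivity) (n + 1)
  have e : ((n : ℚ) + 1) ^ (n + 1) = (1 + 1 / n) ^ (n + 1) * (n : ℚ) ^ (n + 1) := by
    rw [← mul_pow]; congr 1; field_simp
  rw [e]
  have h2 : (5 / 2 : ℚ) ≤ (1 + 1 / n) ^ (n + 1) := by
    refine le_trans ?_ h
    push_cast
    have e2 : 1 + ((n : ℚ) + 1) * (1 / n) + ((n : ℚ) + 1) * ((n : ℚ) + 1 - 1) / 2 * (1 / n) ^ 2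
        = 5 / 2 + 3 / (2 * n) := by field_simp; ring
    rw [e2]
    have : (0 : ℚ) ≤ 3 / (2 * n) := by positivity
    linarith
  gcongr

theorem factorial_le (n : ℕ) (hn : 1 ≤ n) :
    (n.factorial : ℚ) * (5 / 2) ^ n ≤ 5 / 2 * (n : ℚ) ^ (n + 1) := by
  induction n, hn using Nat.le_induction with
  | base => norm_num
  | succ n hn ih =>
    have h := step_le n hn
    rw [Nat.factorial_succ]
    push_cast
    have hp : (0 : ℚ) ≤ (n : ℚ) + 1 := by positivity
    calc ((n : ℚ) + 1) * n.factorial * (5 / 2) ^ (n + 1)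
        = ((n : ℚ) + 1) * (5 / 2) * (n.factorial * (5 / 2) ^ n) := by ring
      _ ≤ ((n : ℚ) + 1) * (5 / 2) * (5 / 2 * (n : ℚ) ^ (n + 1)) := by gcongr
      _ ≤ ((n : ℚ) + 1) * (5 / 2) * (((n : ℚ) + 1) ^ (n + 1)) := by gcongr
      _ = 5 / 2 * ((n : ℚ) + 1) ^ (n + 1 + 1) := by ring

theorem prod_pos' (L T : ℕ) (hT : 1 ≤ T) : 0 < ∏ j ∈ range (L + 1), ((T + j : ℕ) : ℚ) := by
  refine Finset.prod_pos fun j _ => ?_
  have : 0 < T + j := by omega
  exact_mod_cast this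

theorem rho_le (L T : ℕ) (hL : 1 ≤ L) (hT : L ^ 2 ≤ 5 * T) : rho L T ≤ 32 * (4 / 5) ^ L := by
  have hT1 : 1 ≤ T := by
    have : 1 ≤ L ^ 2 := Nat.one_le_pow _ _ hL
    omega
  have hL' : (0 : ℚ) < L := by exact_mod_cast hL
  have hP := prod_pos' L T hT1
  have hT' : (L : ℚ) ^ 2 / 5 ≤ T := by
    have : ((L ^ 2 : ℕ) : ℚ) ≤ ((5 * T : ℕ) : ℚ) := by exact_mod_cast hT
    push_cast at this
    linarith
  have hlow : ((L : ℚ) ^ 2 / 5) ^ (L + 1) ≤ ∏ j ∈ range (L + 1), ((T + j : ℕ) : ℚ) := by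
    calc ((L : ℚ) ^ 2 / 5) ^ (L + 1) = ∏ _j ∈ range (L + 1), ((L : ℚ) ^ 2 / 5) := by
          rw [Finset.prod_const, Finset.card_range]
      _ ≤ _ := by
        refine Finset.prod_le_prod (fun _ _ => by positivity) fun j _ => ?_
        push_cast
        have : (0 : ℚ) ≤ j := by positivity
        linarith
  have hf := factorial_le L hL
  have hf2 : (L.factorial : ℚ) ≤ 5 / 2 * (L : ℚ) ^ (L + 1) * (2 / 5) ^ L := by
    have e : (5 / 2 : ℚ) ^ L * (2 / 5) ^ L = 1 := by rw [← mul_pow]; norm_num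
    calc (L.factorial : ℚ) = L.factorial * (5 / 2) ^ L * (2 / 5) ^ L := by
          rw [mul_assoc, e, mul_one]
      _ ≤ _ := by gcongr
  rw [rho, div_le_iff₀ hP]
  have e1 : (5 / 2 * (L : ℚ) ^ (L + 1) * (2 / 5) ^ L) ^ 2
      = 125 / 4 * (4 / 5) ^ L * ((L : ℚ) ^ 2 / 5) ^ (L + 1) := by
    have e2 : ((2 / 5 : ℚ) ^ L) ^ 2 = (4 / 5) ^ L * (1 / 5) ^ L := by
      rw [← pow_mul, mul_comm L 2, pow_mul, ← mul_pow]; norm_num
    have e3 : ((L : ℚ) ^ 2 / 5) ^ (L + 1) = ((L : ℚ) ^ (L + 1)) ^ 2 * ((1 / 5) ^ L * (1 / 5)) := by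
      rw [div_eq_mul_one_div, mul_pow, ← pow_mul, ← pow_mul, mul_comm 2 (L + 1), pow_succ (1 / 5 : ℚ)]
    rw [mul_pow, mul_pow, e2, e3]; ring
  calc (L.factorial : ℚ) ^ 2 ≤ (5 / 2 * (L : ℚ) ^ (L + 1) * (2 / 5) ^ L) ^ 2 := by gcongr
    _ = 125 / 4 * (4 / 5) ^ L * ((L : ℚ) ^ 2 / 5) ^ (L + 1) := e1
    _ ≤ 32 * (4 / 5) ^ L * ∏ j ∈ range (L + 1), ((T + j : ℕ) : ℚ) := by
        gcongr
        norm_num

theorem rho_ge (L T : ℕ) (hT : 1 ≤ T) : 1 ≤ rho L T * ((T + L : ℕ) : ℚ) ^ (L + 1) := by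
  have hP := prod_pos' L T hT
  have hup : ∏ j ∈ range (L + 1), ((T + j : ℕ) : ℚ) ≤ ((T + L : ℕ) : ℚ) ^ (L + 1) := by
    calc ∏ j ∈ range (L + 1), ((T + j : ℕ) : ℚ) ≤ ∏ _j ∈ range (L + 1), ((T + L : ℕ) : ℚ) := by
          refine Finset.prod_le_prod (fun _ _ => by positivity) fun j hj => ?_
          have : T + j ≤ T + L := by have := Finset.mem_range.1 hj; omega
          exact_mod_cast this
      _ = _ := by simp
  have hf : (1 : ℚ) ≤ (L.factorial : ℚ) ^ 2 := by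
    have : (1 : ℚ) ≤ L.factorial := by exact_mod_cast Nat.factorial_pos L
    exact one_le_pow₀ this
  rw [rho, div_mul_eq_mul_div, le_div_iff₀ hP]
  calc 1 * ∏ j ∈ range (L + 1), ((T + j : ℕ) : ℚ)
      ≤ (L.factorial : ℚ) ^ 2 * ((T + L : ℕ) : ℚ) ^ (L + 1) := by gcongr

theorem rho_pos (L T : ℕ) (hT : 1 ≤ T) : 0 < rho L T := by
  have hP := prod_pos' L T hT
  have : (0 : ℚ) < L.factorial := by exact_mod_cast Nat.factorial_pos L
  rw [rho]
  positivity

theorem prod_dist (a k : ℕ) :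
    ∏ h ∈ (range (a + 1 + k)).erase a, Nat.dist h a = a.factorial * k.factorial := by
  induction k with
  | zero =>
    have e : (range (a + 1 + 0)).erase a = range a := by
      ext x; simp only [mem_erase, mem_range]; omega
    rw [e, Nat.factorial_zero, mul_one, ← Finset.prod_range_add_one_eq_factorial,
      ← Finset.prod_range_reflect]
    refine Finset.prod_congr rfl fun x hx => ?_
    have := mem_range.1 hx
    unfold Nat.dist
    omega
  | succ k ih =>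
    have e : (range (a + 1 + (k + 1))).erase a = insert (a + 1 + k) ((range (a + 1 + k)).erase a) := by
      ext x; simp only [mem_erase, mem_range, mem_insert]; omega
    rw [e, Finset.prod_insert (by simp), ih, Nat.factorial_succ]
    have : Nat.dist (a + 1 + k) a = k + 1 := by unfold Nat.dist; omega
    rw [this]; ring

theorem prod_dvd_mul_factorial (R H N : ℕ) (hR : 0 < R) (hN : N ≠ 0) (D : Finset ℕ)
    (hD : D ⊆ range H) (hdiv : ∀ h ∈ D, R + h ∣ N) :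
    ∏ h ∈ D, (R + h) ∣ N * (H - 1).factorial := by
  have hne : ∀ h ∈ D, R + h ≠ 0 := fun h _ => by omega
  have hF : (H - 1).factorial ≠ 0 := Nat.factorial_ne_zero _
  rcases D.eq_empty_or_nonempty with rfl | hne'
  · simp
  rw [← Nat.factorization_prime_le_iff_dvd (Finset.prod_ne_zero_iff.2 hne) (mul_ne_zero hN hF)]
  intro p hp
  obtain ⟨a, ha, hmax⟩ := D.exists_max_image (fun h => (R + h).factorization p) hne'
  have haH := mem_range.1 (hD ha)
  rw [Nat.factorization_prod hne, Nat.factorization_mul hN hF, Finsupp.finsetSum_apply,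
    Finsupp.add_apply, ← Finset.add_sum_erase D _ ha]
  have h1 : (R + a).factorization p ≤ N.factorization p :=
    (Nat.factorization_le_iff_dvd (hne a ha) hN).2 (hdiv a ha) p
  have hdne : ∀ h ∈ D.erase a, Nat.dist h a ≠ 0 := fun h hh h0 =>
    (mem_erase.1 hh).1 (Nat.eq_of_dist_eq_zero h0)
  have h2 : ∑ h ∈ D.erase a, (R + h).factorization p
      ≤ ∑ h ∈ D.erase a, (Nat.dist h a).factorization p := by
    refine Finset.sum_le_sum fun h hh => ?_
    have hhD := (mem_erase.1 hh).2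
    rw [← hp.pow_dvd_iff_le_factorization (hdne h hh)]
    have d1 : p ^ (R + h).factorization p ∣ R + h := Nat.ordProj_dvd _ _
    have d2 : p ^ (R + h).factorization p ∣ R + a :=
      (hp.pow_dvd_iff_le_factorization (hne a ha)).2 (hmax h hhD)
    have e : Nat.dist h a = (R + h - (R + a)) + (R + a - (R + h)) := by unfold Nat.dist; omega
    rw [e]
    exact dvd_add (Nat.dvd_sub d1 d2) (Nat.dvd_sub d2 d1)
  have h3 : ∏ h ∈ D.erase a, Nat.dist h a ∣ (H - 1).factorial := by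
    have e : H = a + 1 + (H - 1 - a) := by omega
    have s : D.erase a ⊆ (range (a + 1 + (H - 1 - a))).erase a := by
      rw [← e]; exact Finset.erase_subset_erase _ hD
    refine (Finset.prod_dvd_prod_of_subset _ _ _ s).trans ?_
    rw [prod_dist]
    have := Nat.factorial_mul_factorial_dvd_factorial_add a (H - 1 - a)
    rwa [show a + (H - 1 - a) = H - 1 by omega] at this
  have h4 := (Nat.factorization_le_iff_dvd (Finset.prod_ne_zero_iff.2 hdne) hF).2 h3 p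
  rw [Nat.factorization_prod hdne, Finsupp.finsetSum_apply] at h4
  omega

theorem few_divisors (η : ℕ) (y : ℤ) (hy : y ≠ 0) (hyb : |y| ≤ 2 ^ 2 ^ η) :
    2 * ((range (2 ^ η)).filter (fun h => ((2 ^ (2 * η + 2) + h : ℕ) : ℤ) ∣ y)).card ≤ 2 ^ η := by
  set D := (range (2 ^ η)).filter (fun h => ((2 ^ (2 * η + 2) + h : ℕ) : ℤ) ∣ y) with hD
  have hN : y.natAbs ≠ 0 := Int.natAbs_ne_zero.2 hy
  have hd := prod_dvd_mul_factorial (2 ^ (2 * η + 2)) (2 ^ η) y.natAbs (by positivity) hN D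
    (Finset.filter_subset _ _) (fun h hh => Int.natCast_dvd.1 (mem_filter.1 hh).2)
  have hle := Nat.le_of_dvd (Nat.mul_pos (Nat.pos_of_ne_zero hN) (Nat.factorial_pos _)) hd
  have hy2 : y.natAbs ≤ 2 ^ 2 ^ η := by
    have : ((y.natAbs : ℕ) : ℤ) ≤ ((2 ^ 2 ^ η : ℕ) : ℤ) := by
      rw [Int.natCast_natAbs]; push_cast; exact hyb
    exact_mod_cast this
  have hf : (2 ^ η - 1).factorial ≤ (2 ^ η) ^ (2 ^ η) :=
    (Nat.factorial_le (Nat.sub_le _ _)).trans (Nat.factorial_le_pow _)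
  have hlow : (2 ^ (2 * η + 2)) ^ D.card ≤ ∏ h ∈ D, (2 ^ (2 * η + 2) + h) :=
    Finset.pow_card_le_prod _ _ _ fun h _ => Nat.le_add_right _ _
  have hall : 2 ^ ((2 * η + 2) * D.card) ≤ 2 ^ (2 ^ η + η * 2 ^ η) := by
    rw [pow_mul, pow_add 2 (2 ^ η), pow_mul 2 η]
    exact hlow.trans (hle.trans (Nat.mul_le_mul hy2 hf))
  have h5 := (Nat.pow_le_pow_iff_right (by norm_num : 1 < 2)).1 hall
  have h6 : (η + 1) * (2 * D.card) ≤ (η + 1) * 2 ^ η := by nlinarith
  exact Nat.le_of_mul_le_mul_left h6 (by omega)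

end Pool.Agent.P.MP_d7de43_lc
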