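import Pool.Agent.P.MP_d7de43_lc.Prog
import Pool.Agent.P.MP_d7de43_lc.NT
import Pool.Agent.P.MP_d7de43_lc.Rho

/-!
The counting function approximates `2^s * N * rho` modulo the random modulus.
-/

namespace Pool.Agent.P.MP_d7de43_lc

open Pool.Agent.Lib.Helper47 Finset

set_option maxHeartbeats 400000

attribute [local irreducible] tt LL TT WW ww HH mm RR bb KK EE MM qq count uu alpha dg NZ rho
  accT okT

theorem quad_le_pow (t : ℕ) (ht : 20 ≤ t) : 400 * t ^ 2 ≤ 2 ^ t := by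
  induction t, ht using Nat.le_induction with
  | base => norm_num
  | succ t ht ih => rw [pow_succ 2 t]; nlinarith

theorem tt_ge (x : List Bool) : 20 ≤ tt x := by unfold tt; omega

theorem LL_succ (x : List Bool) : LL x + 1 = 2 ^ tt x := by
  have : 0 < 2 ^ tt x := by positivity
  unfold LL; omega

theorem LL_ge (x : List Bool) : 100 ≤ LL x := by
  have h1 := LL_succ x
  have h2 := quad_le_pow _ (tt_ge x)
  have h3 := tt_ge x
  nlinarith

theorem LL_odd (x : List Bool) : Odd (LL x) := by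
  have h1 := LL_succ x
  have h2 : Even (2 ^ tt x) := (Nat.even_pow.2 ⟨even_two, by have := tt_ge x; omega⟩)
  rw [← h1] at h2
  exact Nat.not_even_iff_odd.1 (Nat.even_add_one.1 h2)

theorem TT_pos (x : List Bool) : 1 ≤ TT x := by unfold TT; omega

theorem TT_ge (x : List Bool) : LL x ^ 2 ≤ 5 * TT x := by unfold TT; rw [sq]; omega

theorem TT_le (x : List Bool) : 4 * (TT x + LL x) ≤ LL x ^ 2 := by
  have h := LL_ge x
  have h2 : 100 * LL x ≤ LL x * LL x := Nat.mul_le_mul_right _ h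
  unfold TT; rw [sq]; omega

theorem WW_eq (x : List Bool) : WW x = (LL x + 1) ^ 2 := by
  rw [LL_succ, WW, ← pow_mul, mul_comm]

theorem LL_sq_le (x : List Bool) : LL x ^ 2 ≤ WW x := by
  rw [WW_eq]; exact Nat.pow_le_pow_left (Nat.le_succ _) _

theorem EE_eq (x : List Bool) : EE x = WW x ^ 5 * 2 ^ bb x * 32 := by
  rw [EE, KK, WW, ← pow_mul, pow_add, pow_add]; congr 3; ring

theorem MM_eq (x : List Bool) :
    2 ^ MM x = WW x * (WW x * (WW x * (WW x * (WW x * EE x)))) := by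
  have : 2 ^ (10 * tt x) = WW x ^ 5 := by rw [WW, ← pow_mul]; congr 1; ring
  rw [MM, pow_add, this, EE]; ring

theorem EE_pos (x : List Bool) : 0 < EE x := by unfold EE; positivity

theorem HH_pos (x : List Bool) : 0 < HH x := by unfold HH; positivity

theorem qq_le (x : List Bool) (r : ℕ) : qq x r ≤ 2 ^ bb x := by
  have h := List.prod_le_pow_card ((dg x r).map (fun h => RR x + h)) (2 ^ (2 * ww x + 3)) (by
    intro a ha
    obtain ⟨h, hh, rfl⟩ := List.mem_map.1 ha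
    rw [dg] at hh
    have h1 := digits_lt (HH_pos x) _ _ h hh
    have h2 : HH x ≤ RR x := by
      rw [HH, RR]; exact Nat.pow_le_pow_right (by norm_num) (by omega)
    have h3 : 2 ^ (2 * ww x + 3) = 2 * RR x := by rw [RR, ← pow_succ']
    omega)
  rw [List.length_map, ← qq, dg, length_digits, ← pow_mul, mul_comm, ← bb] at h
  exact h

theorem qq_ge (x : List Bool) (r : ℕ) : 8 ≤ qq x r := by
  have h := List.pow_card_le_prod ((dg x r).map (fun h => RR x + h)) 2 (by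
    intro a ha
    obtain ⟨h, -, rfl⟩ := List.mem_map.1 ha
    have h2 : 2 ^ 1 ≤ RR x := by rw [RR]; exact Nat.pow_le_pow_right (by norm_num) (by omega)
    omega)
  rw [List.length_map, ← qq, dg, length_digits] at h
  have h2 : 2 ^ 3 ≤ 2 ^ mm x := Nat.pow_le_pow_right (by norm_num) (by unfold mm; omega)
  exact h2.trans h

theorem rho_small (x : List Bool) :
    (2 : ℚ) ^ bb x * 2 ^ 2 ^ x.length * rho (LL x) (TT x) ≤ 1 / 32 := by
  have h1 := rho_le (LL x) (TT x) (by have := LL_ge x; omega) (TT_ge x)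
  have h2 : 4 * (bb x + 2 ^ x.length + 10) ≤ LL x := by
    have h3 := LL_succ x
    have h4 := quad_le_pow _ (tt_ge x)
    have h5 := tt_ge x
    have h6 : 2 ^ tt x = 2 ^ x.length * 2 ^ 20 := by rw [tt, pow_add]
    have h7 : bb x = 24 * tt x ^ 2 + 114 * tt x + 135 := by unfold bb mm ww; ring
    have h8 : 20 * tt x ≤ tt x ^ 2 := by nlinarith
    omega
  have h3 : (4 / 5 : ℚ) ^ LL x ≤ (1 / 2) ^ (bb x + 2 ^ x.length + 10) :=
    calc (4 / 5 : ℚ) ^ LL x ≤ (4 / 5) ^ (4 * (bb x + 2 ^ x.length + 10)) :=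
          pow_le_pow_of_le_one (by norm_num) (by norm_num) h2
      _ = ((4 / 5) ^ 4) ^ (bb x + 2 ^ x.length + 10) := pow_mul _ _ _
      _ ≤ _ := pow_le_pow_left₀ (by norm_num) (by norm_num) _
  calc (2 : ℚ) ^ bb x * 2 ^ 2 ^ x.length * rho (LL x) (TT x)
      ≤ 2 ^ bb x * 2 ^ 2 ^ x.length * (32 * (1 / 2) ^ (bb x + 2 ^ x.length + 10)) := by
        gcongr; linarith
    _ = 1 / 32 := by
        rw [pow_add, pow_add, one_div_pow, one_div_pow]; field_simp; norm_num

theorem rho_big (x : List Bool) : 1 < (2 : ℚ) ^ WW x * rho (LL x) (TT x) := by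
  have h1 := rho_ge (LL x) (TT x) (TT_pos x)
  have h2 := rho_pos (LL x) (TT x) (TT_pos x)
  have h3 : (TT x + LL x) ^ (LL x + 1) < 2 ^ WW x := by
    have h4 := TT_le x
    have h5 := LL_sq_le x
    have h6 := quad_le_pow _ (tt_ge x)
    have h7 := tt_ge x
    calc (TT x + LL x) ^ (LL x + 1) ≤ WW x ^ (LL x + 1) := Nat.pow_le_pow_left (by omega) _
      _ = 2 ^ (2 * tt x * 2 ^ tt x) := by rw [LL_succ, WW, ← pow_mul]
      _ < 2 ^ WW x := by
        refine Nat.pow_lt_pow_right (by norm_num) ?_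
        rw [WW, two_mul (tt x), pow_add]
        exact Nat.mul_lt_mul_of_pos_right (by nlinarith) (by positivity)
  have h4 : ((TT x + LL x : ℕ) : ℚ) ^ (LL x + 1) < 2 ^ WW x := by exact_mod_cast h3
  nlinarith

theorem sum1 (W : ℕ) (f g : ℕ → ℚ) (ε : ℚ) (h : ∀ a ∈ range W, |f a - g a| ≤ ε) :
    |∑ a ∈ range W, f a - ∑ a ∈ range W, g a| ≤ W * ε := by
  rw [← sum_sub_distrib]
  refine (abs_sum_le_sum_abs _ _).trans ((sum_le_sum h).trans ?_)
  simp

theorem card_floor (E p u : ℕ) (hp : 0 < p) (hu : u < p) :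
    ∑ z ∈ range E, (if (z + 1) * p ≤ E * u then 1 else 0) = E * u / p := by
  rw [← card_filter, ← card_range (E * u / p)]
  refine congrArg card ?_
  ext z
  simp only [mem_filter, mem_range, ← Nat.le_div_iff_mul_le hp]
  have : E * u / p ≤ E := Nat.div_le_of_le_mul (by nlinarith)
  omega

theorem floor_approx (E p u : ℕ) (hE : 0 < E) (hp : 0 < p) :
    |((E * u / p : ℕ) : ℚ) / E - (u : ℚ) / p| ≤ 1 / E := by
  have h1 := Nat.div_add_mod (E * u) p
  have h2 := Nat.mod_lt (E * u) hp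
  have h3 : (p : ℚ) * ((E * u / p : ℕ) : ℚ) + ((E * u % p : ℕ) : ℚ) = E * u := by exact_mod_cast h1
  have h4 : ((E * u % p : ℕ) : ℚ) < p := by exact_mod_cast h2
  have h5 : (0 : ℚ) ≤ ((E * u % p : ℕ) : ℚ) := by positivity
  have hE' : (0 : ℚ) < E := by exact_mod_cast hE
  have hp' : (0 : ℚ) < p := by exact_mod_cast hp
  have e : ((E * u / p : ℕ) : ℚ) / E - (u : ℚ) / p = -(((E * u % p : ℕ) : ℚ) / p) / E := by
    field_simp; linarith
  have h6 : ((E * u % p : ℕ) : ℚ) / p ≤ 1 := (div_le_one hp').2 h4.le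
  rw [e, abs_div, abs_neg, abs_of_nonneg (by positivity), abs_of_pos hE']
  gcongr

theorem count_eq (x : List Bool) (r s : ℕ) : count x r s =
    ∑ j ∈ range (WW x), ∑ p ∈ range (WW x), ∑ i ∈ range (WW x), ∑ ω₁ ∈ range (WW x),
      ∑ ω₂ ∈ range (WW x), ∑ z ∈ range (EE x),
        if accT x r s j p i ω₁ ω₂ z = true then 1 else 0 := by
  rw [count, card_filter, MM_eq]
  unfold acc
  rw [sum_range_mul (WW x) _ (fun j n => if accT x r s j (n % WW x) (n / WW x % WW x)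
    (n / WW x / WW x % WW x) (n / WW x / WW x / WW x % WW x) (n / WW x / WW x / WW x / WW x) = true
    then 1 else 0)]
  refine sum_congr rfl (fun j _ => ?_)
  rw [sum_range_mul (WW x) _ (fun p n => if accT x r s j p (n % WW x) (n / WW x % WW x)
    (n / WW x / WW x % WW x) (n / WW x / WW x / WW x) = true then 1 else 0)]
  refine sum_congr rfl (fun p _ => ?_)
  rw [sum_range_mul (WW x) _ (fun i n => if accT x r s j p i (n % WW x) (n / WW x % WW x)
    (n / WW x / WW x) = true then 1 else 0)]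
  refine sum_congr rfl (fun i _ => ?_)
  rw [sum_range_mul (WW x) _ (fun ω₁ n => if accT x r s j p i ω₁ (n % WW x) (n / WW x) = true
    then 1 else 0)]
  refine sum_congr rfl (fun ω₁ _ => ?_)
  rw [sum_range_mul (WW x) _ (fun ω₂ n => if accT x r s j p i ω₁ ω₂ n = true then 1 else 0)]

/-- the primality test is correct in the relevant range -/
def Good1 (x : List Bool) (r : ℕ) : Prop :=
  ∀ d, LL x < d → d < WW x → (test d (dg x r) = true ↔ d.Prime)

theorem alpha_cast (x : List Bool) (r s p : ℕ) (hp : p.Prime) :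
    ((alpha x r s p : ℕ) : ZMod p) =
      ((((2 ^ s / qq x r : ℕ) : ℤ) * NZ (parseLines x) : ℤ) : ZMod p) := by
  have hq := qq_ge x r
  rw [alpha, pw_eq (Nat.mul_pos hp.pos (by omega)), Nat.mod_mul_left_div_self, Nat.cast_mul,
    ZMod.natCast_mod, evalMod_cast hp.pos, Int.cast_mul, Int.cast_natCast]

theorem term_approx (x : List Bool) (r s : ℕ) (hg : Good1 x r) (j p i ω₁ ω₂ : ℕ) (hp : p < WW x) :
    |((∑ z ∈ range (EE x), if accT x r s j p i ω₁ ω₂ z = true then 1 else 0 : ℕ) : ℚ) / EE x -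
      (if j ≤ LL x ∧ i ≤ LL x ∧ p.Prime ∧ LL x < p ∧ p ∣ TT x + j ∧ ω₁ < p ∧ ω₂ < p then
        (uu (LL x) (TT x) (alpha x r s p) j p i ω₁ ω₂ : ℚ) / p else 0)| ≤ 1 / EE x := by
  have hok : okT x r j p i ω₁ ω₂ = true ↔
      j ≤ LL x ∧ i ≤ LL x ∧ p.Prime ∧ LL x < p ∧ p ∣ TT x + j ∧ ω₁ < p ∧ ω₂ < p := by
    simp only [okT, Bool.and_eq_true, Nat.ble_eq, Nat.blt_eq, beq_iff_eq, and_assoc,
      Nat.dvd_iff_mod_eq_zero]
    constructor
    · rintro ⟨h1, h2, h3, h4, h5⟩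
      exact ⟨h1, h2, (hg p h4 hp).1 h3, h4, h5⟩
    · rintro ⟨h1, h2, h3, h4, h5⟩
      exact ⟨h1, h2, (hg p h4 hp).2 h3, h4, h5⟩
  by_cases h : okT x r j p i ω₁ ω₂ = true
  · have h' := hok.1 h
    have hp0 : 0 < p := by omega
    rw [if_pos h']
    simp only [accT, h, Bool.true_and, Nat.ble_eq]
    rw [card_floor _ _ _ hp0 (by unfold uu; exact Nat.mod_lt _ hp0)]
    exact floor_approx _ _ _ (EE_pos x) hp0
  · rw [if_neg (fun h' => h (hok.2 h'))]
    simp [accT, h]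

/-- the scaled value -/
def xs (x : List Bool) (s : ℕ) : ℚ := 2 ^ s * (NZ (parseLines x) * rho (LL x) (TT x))

theorem x0_small {x : List Bool} (hx : validStr x = true) :
    (2 : ℚ) ^ bb x * |NZ (parseLines x) * rho (LL x) (TT x)| ≤ 1 / 32 := by
  have h1 := rho_small x
  have h2 := rho_pos (LL x) (TT x) (TT_pos x)
  have h3 : |NZ (parseLines x)| ≤ 2 ^ 2 ^ x.length := (NZ_bound _).trans
    (pow_le_pow_right₀ (by norm_num) (Nat.pow_le_pow_right (by norm_num) (length_le_of_valid hx)))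
  have h4 : |(NZ (parseLines x) : ℚ)| ≤ 2 ^ 2 ^ x.length := by exact_mod_cast h3
  rw [abs_mul, abs_of_pos h2, ← mul_assoc]
  refine le_trans ?_ h1
  gcongr

theorem approx {x : List Bool} (hx : validStr x = true) (r s : ℕ) (hg : Good1 x r) :
    ∃ c : ℤ, |(qq x r : ℚ) * ((count x r s % EE x : ℕ) : ℚ) / EE x - c * qq x r - xs x s|
      ≤ 1 / 16 := by
  obtain ⟨c, hc⟩ := frac_identity (LL x) (TT x) (WW x) (LL_odd x) (by have := LL_ge x; omega)
    (TT_pos x) (TT_le x) (LL_sq_le x) (((2 ^ s / qq x r : ℕ) : ℤ) * NZ (parseLines x))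
    (alpha x r s) (alpha_cast x r s)
  have h1 := sum1 (WW x) _ _ _ fun j _ => sum1 (WW x) _ _ _ fun p hp => sum1 (WW x) _ _ _
    fun i _ => sum1 (WW x) _ _ _ fun ω₁ _ => sum1 (WW x) _ _ _ fun ω₂ _ =>
      term_approx x r s hg j p i ω₁ ω₂ (mem_range.1 hp)
  simp only [← sum_div, ← Nat.cast_sum, ← count_eq] at h1
  rw [← sub_eq_iff_eq_add'] at hc
  rw [← hc] at h1
  have hE : (0 : ℚ) < EE x := by exact_mod_cast EE_pos x
  have hE2 : (EE x : ℚ) = WW x ^ 5 * 2 ^ bb x * 32 := by exact_mod_cast EE_eq x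
  have hW : (0 : ℚ) < WW x := by unfold WW; positivity
  have hq : (qq x r : ℚ) ≤ 2 ^ bb x := by exact_mod_cast qq_le x r
  have hq0 : (0 : ℚ) ≤ qq x r := by positivity
  have h2 : (WW x : ℚ) * (WW x * (WW x * (WW x * (WW x * (1 / EE x))))) = 1 / 32 / 2 ^ bb x := by
    rw [hE2]; field_simp
  rw [h2] at h1
  have h3 := x0_small hx
  have h4 : (EE x : ℚ) * ((count x r s / EE x : ℕ) : ℚ) + ((count x r s % EE x : ℕ) : ℚ) =
      count x r s := by exact_mod_cast Nat.div_add_mod (count x r s) (EE x)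
  have h5 : (qq x r : ℚ) * ((2 ^ s / qq x r : ℕ) : ℚ) + ((2 ^ s % qq x r : ℕ) : ℚ) = 2 ^ s := by
    exact_mod_cast Nat.div_add_mod (2 ^ s) (qq x r)
  have h6 : ((2 ^ s % qq x r : ℕ) : ℚ) ≤ 2 ^ bb x := by
    refine le_trans ?_ hq
    exact_mod_cast (Nat.mod_lt _ (by have := qq_ge x r; omega)).le
  refine ⟨-c - (count x r s / EE x : ℕ), ?_⟩
  rw [Int.cast_mul, Int.cast_natCast] at h1
  set y : ℚ := NZ (parseLines x) * rho (LL x) (TT x) with hy
  have e : (qq x r : ℚ) * ((count x r s % EE x : ℕ) : ℚ) / EE x -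
      ((-c - (count x r s / EE x : ℕ) : ℤ) : ℚ) * qq x r - xs x s =
      qq x r * ((count x r s : ℚ) / EE x - (((2 ^ s / qq x r : ℕ) : ℚ) * NZ (parseLines x) *
        rho (LL x) (TT x) - c)) - ((2 ^ s % qq x r : ℕ) : ℚ) * y := by
    rw [xs, ← hy, mul_assoc, ← hy, ← h4, ← h5, Int.cast_sub, Int.cast_neg, Int.cast_natCast]
    field_simp
    ring
  rw [e]
  refine (abs_sub _ _).trans ?_
  rw [abs_mul, abs_mul, abs_of_nonneg hq0, Nat.abs_cast]
  have h7 : (qq x r : ℚ) * |(count x r s : ℚ) / EE x - (((2 ^ s / qq x r : ℕ) : ℚ) *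
      NZ (parseLines x) * rho (LL x) (TT x) - c)| ≤ 2 ^ bb x * (1 / 32 / 2 ^ bb x) := by
    gcongr
  have h8 : ((2 ^ s % qq x r : ℕ) : ℚ) * |y| ≤ 2 ^ bb x * |y| := by gcongr
  have h9 : (2 : ℚ) ^ bb x * (1 / 32 / 2 ^ bb x) = 1 / 32 := by field_simp
  linarith

end Pool.Agent.P.MP_d7de43_lc
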