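import Mathlib

/-!
Complexity classes over Mathlib's polynomial-time Turing machines, and the language PosSLP.
-/

namespace Pool.Agent.P.MP_d7de43_lc

/-- Self-delimiting pairing of bit strings. -/
def pair (x w : List Bool) : List Bool := x.flatMap (fun b => [true, b]) ++ false :: w

/-- Functions on bit strings computed by a Turing machine in polynomial time. -/
def InFP (f : List Bool → List Bool) : Prop :=
  Nonempty (Turing.TM2ComputableInPolyTime id id f)

/-- The number of bit strings of length `m` with property `P`. -/
noncomputable def cnt (m : ℕ) (P : List Bool → Prop) : ℕ := Set.ncard {w | w.length = m ∧ P w}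

/-- The class PP: membership is decided by a strict majority of the witnesses. -/
def InPP (A : Set (List Bool)) : Prop :=
  ∃ (V : List Bool → List Bool) (p : Polynomial ℕ), InFP V ∧
    ∀ y, y ∈ A ↔ 2 ^ p.eval y.length < 2 * cnt (p.eval y.length) (fun w => V (pair y w) = [true])

open Classical in
/-- The first `k` answers of the oracle `A` on input `z`, where each query is computed by `Q`
from the input and the earlier answers. -/
noncomputable def answers (A : Set (List Bool)) (Q : List Bool → List Bool) (z : List Bool)
    (k : ℕ) : List Bool :=
  (fun a => a ++ [decide (Q (pair z a) ∈ A)])^[k] []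

/-- `B` is decided in polynomial time with oracle `A`. -/
def InPRel (A B : Set (List Bool)) : Prop :=
  ∃ (Q O : List Bool → List Bool) (p : Polynomial ℕ), InFP Q ∧ InFP O ∧
    ∀ z, z ∈ B ↔ O (pair z (answers A Q z (p.eval z.length))) = [true]

/-- `L` is decided in bounded-error probabilistic polynomial time with oracle `A`. -/
def InBPPRel (A L : Set (List Bool)) : Prop :=
  ∃ (B : Set (List Bool)) (p : Polynomial ℕ), InPRel A B ∧
    ∀ x, 2 * 2 ^ p.eval x.length ≤ 3 * cnt (p.eval x.length) (fun r => pair x r ∈ B ↔ x ∈ L)

/-- The three operations: addition, subtraction, multiplication. -/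
def applyOp (o : Fin 3) (a b : ℤ) : ℤ := if o = 0 then a + b else if o = 1 then a - b else a * b

/-- The list of the integers `a_0, ..., a_n` defined by a straight-line program. -/
def values (P : List (ℕ × ℕ × Fin 3)) : List ℤ :=
  P.foldl (fun a c => a ++ [applyOp c.2.2 (a.getD c.1 0) (a.getD c.2.1 0)]) [1]

/-- Every instruction refers only to earlier values. -/
def Valid (P : List (ℕ × ℕ × Fin 3)) : Prop :=
  ∀ i : Fin P.length, (P.get i).1 ≤ i.val ∧ (P.get i).2.1 ≤ i.val

/-- Self-delimiting binary code of a number. -/
def numCode (n : ℕ) : List Bool := n.bits.flatMap (fun b => [true, b]) ++ [false, false]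

/-- Binary code of a program. -/
def code (P : List (ℕ × ℕ × Fin 3)) : List Bool :=
  P.flatMap fun c => numCode c.1 ++ numCode c.2.1 ++ numCode c.2.2.val ++ [false, true]

/-- Codes of straight-line programs computing a positive integer. -/
def PosSLP : Set (List Bool) :=
  {x | ∃ P, Valid P ∧ code P = x ∧ 0 < (values P).getD P.length 0}

end Pool.Agent.P.MP_d7de43_lc
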