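import Pool.Agent.P.MP_d7de43_lc.Base

/-!
Lehmann's probabilistic primality test.
-/

namespace Pool.Agent.P.MP_d7de43_lc

open Finset

namespace Lehmann

theorem test_iff {d : ℕ} (hd : 3 ≤ d) (as : List ℕ) :
    test d as = true ↔ d % 2 = 1 ∧
      (∀ a ∈ as, (a : ZMod d) = 0 ∨ (a : ZMod d) ^ (d / 2) = 1 ∨ (a : ZMod d) ^ (d / 2) = -1) ∧
      ∃ a ∈ as, (a : ZMod d) ^ (d / 2) = -1 := by
  have h0 : ∀ a : ℕ, a % d = 0 ↔ (a : ZMod d) = 0 := fun a => by
    rw [ZMod.natCast_eq_zero_iff, Nat.dvd_iff_mod_eq_zero]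
  have h1 : ∀ a : ℕ, pw a (d / 2) d = 1 ↔ (a : ZMod d) ^ (d / 2) = 1 := fun a => by
    rw [pw_eq (by omega), ← Nat.cast_pow, ← Nat.cast_one (R := ZMod d),
      ZMod.natCast_eq_natCast_iff', Nat.mod_eq_of_lt (by omega : 1 < d)]
  have h2 : ∀ a : ℕ, pw a (d / 2) d = d - 1 ↔ (a : ZMod d) ^ (d / 2) = -1 := fun a => by
    have e : (-1 : ZMod d) = ((d - 1 : ℕ) : ZMod d) := by
      rw [Nat.cast_sub (by omega)]; simp
    rw [pw_eq (by omega), ← Nat.cast_pow, e, ZMod.natCast_eq_natCast_iff',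
      Nat.mod_eq_of_lt (by omega : d - 1 < d)]
  simp only [test, Bool.and_eq_true, beq_iff_eq, List.all_eq_true, List.any_eq_true,
    Bool.or_eq_true, h0, h1, h2, and_assoc, or_assoc]

theorem one_ne_neg_one {d : ℕ} (hd : 3 ≤ d) : (1 : ZMod d) ≠ -1 := by
  intro h
  have h2 : ((2 : ℕ) : ZMod d) = 0 := by
    push_cast
    linear_combination h
  rw [ZMod.natCast_eq_zero_iff] at h2
  have := Nat.le_of_dvd two_pos h2
  omega

theorem no_neg_one {d : ℕ} (hd : 3 ≤ d) (hodd : d % 2 = 1) (hnp : ¬ d.Prime)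
    (h : ∀ b : ZMod d, IsUnit b → b ^ (d / 2) = 1 ∨ b ^ (d / 2) = -1) (a : ℕ) :
    (a : ZMod d) ^ (d / 2) ≠ -1 := by
  intro ha
  have hl : (d.minFac).Prime := Nat.minFac_prime (by omega)
  obtain ⟨m, hm⟩ : d.minFac ∣ d := Nat.minFac_dvd d
  set l := d.minFac with hldef
  have hm0 : m ≠ 0 := by rintro rfl; omega
  have hm1 : m ≠ 1 := by
    rintro rfl
    exact hnp (by rw [hm, mul_one]; exact hl)
  have hl2 := hl.two_le
  by_cases hlm : l ∣ m
  · obtain ⟨k, hk⟩ := hlm
    have hsq : (m : ZMod d) ^ 2 = 0 := by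
      rw [← Nat.cast_pow, ZMod.natCast_eq_zero_iff]
      exact ⟨k, by rw [hm, hk]; ring⟩
    have hpow : ∀ n : ℕ, (1 + (m : ZMod d)) ^ n = 1 + n * m := by
      intro n
      induction n with
      | zero => simp
      | succ n ih => rw [pow_succ, ih]; push_cast; linear_combination (n : ZMod d) * hsq
    have hu : IsUnit (1 + (m : ZMod d)) :=
      IsUnit.of_mul_eq_one (1 - m) (by linear_combination (-1 : ZMod d) * hsq)
    have h1 : (1 + (m : ZMod d)) ^ (d / 2 * 2) = 1 := by
      rw [pow_mul]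
      rcases h _ hu with e | e <;> rw [e] <;> simp
    have h2 : ((d / 2 * 2 : ℕ) : ZMod d) = -1 := by
      have : d / 2 * 2 = d - 1 := by omega
      rw [this, Nat.cast_sub (by omega)]; simp
    rw [hpow, h2] at h1
    have h3 : (m : ZMod d) = 0 := by linear_combination (-1 : ZMod d) * h1
    rw [ZMod.natCast_eq_zero_iff] at h3
    have := Nat.le_of_dvd (Nat.pos_of_ne_zero hm0) h3
    nlinarith [Nat.pos_of_ne_zero hm0]
  · have hcop : Nat.Coprime l m := (Nat.Prime.coprime_iff_not_dvd hl).2 hlm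
    have hl3 : 3 ≤ l := by
      by_contra hc
      have : l = 2 := by omega
      rw [this] at hm; omega
    have hm3 : 3 ≤ m := by
      by_contra hc
      have : m = 2 := by omega
      rw [this] at hm; omega
    obtain ⟨c, hc1, hc2⟩ := Nat.chineseRemainder hcop a 1
    have hld : l ∣ d := ⟨m, hm⟩
    have hmd : m ∣ d := ⟨l, by rw [hm, mul_comm]⟩
    have e1 : (c : ZMod l) ^ (d / 2) = -1 := by
      have := congrArg (ZMod.castHom hld (ZMod l)) ha
      rw [map_pow, map_natCast, map_neg, map_one] at this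
      rw [(ZMod.natCast_eq_natCast_iff _ _ _).2 hc1, this]
    have e2 : (c : ZMod m) = 1 := by
      rw [(ZMod.natCast_eq_natCast_iff _ _ _).2 hc2, Nat.cast_one]
    have hu : IsUnit (c : ZMod d) := by
      rw [ZMod.isUnit_iff_coprime, hm]
      refine Nat.Coprime.mul_right ?_ ?_
      · rw [← ZMod.isUnit_iff_coprime]
        have : IsUnit ((c : ZMod l) ^ (d / 2)) := by rw [e1]; exact isUnit_one.neg
        exact (isUnit_pow_iff (by omega)).1 this
      · rw [← ZMod.isUnit_iff_coprime, e2]; exact isUnit_one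
    rcases h _ hu with e | e
    · have := congrArg (ZMod.castHom hld (ZMod l)) e
      rw [map_pow, map_natCast, map_one, e1] at this
      exact one_ne_neg_one hl3 this.symm
    · have := congrArg (ZMod.castHom hmd (ZMod m)) e
      rw [map_pow, map_natCast, map_neg, map_one, e2, one_pow] at this
      exact one_ne_neg_one hm3 this

theorem exists_Z {d : ℕ} (hd : 3 ≤ d) : ∃ Z : Finset (ZMod d), 2 * Z.card ≤ d + 1 ∧
    ∀ as : List ℕ, (∃ a ∈ as, (a : ZMod d) ∉ Z) → (test d as = true ↔ d.Prime) := by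
  classical
  have : NeZero d := ⟨by omega⟩
  by_cases hodd : d % 2 = 1
  swap
  · refine ⟨∅, by simp, fun as _ => ?_⟩
    rw [test_iff hd]
    refine iff_of_false (fun h => hodd h.1) fun hp => ?_
    rcases hp.eq_two_or_odd with h | h <;> omega
  by_cases hp : d.Prime
  · have : Fact d.Prime := ⟨hp⟩
    refine ⟨insert 0 (Polynomial.nthRootsFinset (d / 2) (1 : ZMod d)), ?_, fun as ⟨a, ha, haZ⟩ => ?_⟩
    · have h1 := card_insert_le 0 (Polynomial.nthRootsFinset (d / 2) (1 : ZMod d))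
      have h2 : (Polynomial.nthRootsFinset (d / 2) (1 : ZMod d)).card ≤ d / 2 := by
        unfold Polynomial.nthRootsFinset
        exact (@Multiset.toFinset_card_le _ (Classical.decEq _) _).trans
          (Polynomial.card_nthRoots _ _)
      omega
    · rw [test_iff hd]
      refine iff_of_true ⟨hodd, fun b _ => ?_, a, ha, ?_⟩ hp
      · by_cases hb : (b : ZMod d) = 0
        · exact Or.inl hb
        · exact Or.inr (ZMod.pow_div_two_eq_neg_one_or_one d hb)
      · rw [mem_insert, not_or, Polynomial.mem_nthRootsFinset (by omega)] at haZ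
        exact (ZMod.pow_div_two_eq_neg_one_or_one d haZ.1).resolve_left haZ.2
  by_cases h : ∀ b : ZMod d, IsUnit b → b ^ (d / 2) = 1 ∨ b ^ (d / 2) = -1
  · refine ⟨∅, by simp, fun as _ => ?_⟩
    rw [test_iff hd]
    exact iff_of_false (fun ⟨_, _, a, _, ha⟩ => no_neg_one hd hodd hp h a ha) hp
  · push Not at h
    obtain ⟨b, hb, hb1, hb2⟩ := h
    set A := univ.filter (fun x : ZMod d => x ^ (d / 2) = 1 ∨ x ^ (d / 2) = -1) with hA
    have hdis : Disjoint A (A.image (b * ·)) := by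
      rw [disjoint_left]
      intro x hx hx'
      obtain ⟨y, hy, rfl⟩ := mem_image.1 hx'
      have h1 := (mem_filter.1 hx).2
      rw [mul_pow] at h1
      rcases (mem_filter.1 hy).2 with e | e <;> rw [e] at h1
      · rw [mul_one] at h1; tauto
      · rw [mul_neg_one, neg_eq_iff_eq_neg, neg_inj] at h1; tauto
    have hunit : ∀ x ∈ A, IsUnit x := by
      intro x hx
      have : IsUnit (x ^ (d / 2)) := by
        rcases (mem_filter.1 hx).2 with e | e <;> rw [e]
        exacts [isUnit_one, isUnit_one.neg]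
      exact (isUnit_pow_iff (by omega)).1 this
    have : Nontrivial (ZMod d) := ZMod.nontrivial_iff.2 (by omega)
    have hsub : A ∪ A.image (b * ·) ⊆ univ.erase 0 := by
      intro x hx
      refine mem_erase.2 ⟨?_, mem_univ _⟩
      rcases mem_union.1 hx with hx | hx
      · exact (hunit x hx).ne_zero
      · obtain ⟨y, hy, rfl⟩ := mem_image.1 hx
        exact (hb.mul (hunit y hy)).ne_zero
    have hcard := card_le_card hsub
    rw [card_union_of_disjoint hdis, card_image_of_injective _ hb.mul_right_injective,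
      card_erase_of_mem (mem_univ _), card_univ, ZMod.card] at hcard
    refine ⟨insert 0 A, ?_, fun as ⟨a, ha, haZ⟩ => ?_⟩
    · have := card_insert_le 0 A
      omega
    · rw [test_iff hd]
      refine iff_of_false (fun h => haZ ?_) hp
      rcases h.2.1 a ha with e | e
      · exact mem_insert.2 (Or.inl e)
      · exact mem_insert_of_mem (mem_filter.2 ⟨mem_univ _, e⟩)

end Lehmann

theorem lehmann (d H : ℕ) (hd : 3 ≤ d) (hH : 8 * d ≤ H) :
    ∃ S : Finset ℕ, 4 * S.card ≤ 3 * H ∧ ∀ as : List ℕ, (∀ a ∈ as, a < H) → (∃ a ∈ as, a ∉ S) →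
      (test d as = true ↔ d.Prime) := by
  classical
  obtain ⟨Z, hZ, h⟩ := Lehmann.exists_Z hd
  refine ⟨(range H).filter (fun a : ℕ => (a : ZMod d) ∈ Z), ?_, fun as hlt ⟨a, ha, haS⟩ =>
    h as ⟨a, ha, fun hz => haS (mem_filter.2 ⟨mem_range.2 (hlt a ha), hz⟩)⟩⟩
  have h1 : ((range H).filter (fun a : ℕ => (a : ZMod d) ∈ Z)).card ≤ (Z ×ˢ range (H / d + 1)).card := by
    refine card_le_card_of_injOn (fun a : ℕ => ((a : ZMod d), a / d)) (fun a ha => ?_)
      fun a _ b _ e => ?_
    · obtain ⟨h1, h2⟩ := mem_filter.1 (mem_coe.1 ha)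
      exact mem_coe.2 (mem_product.2 ⟨h2, mem_range.2
        (Nat.lt_succ_of_le (Nat.div_le_div_right (mem_range.1 h1).le))⟩)
    · obtain ⟨e1, e2⟩ := Prod.mk.inj e
      rw [ZMod.natCast_eq_natCast_iff'] at e1
      rw [← Nat.div_add_mod a d, ← Nat.div_add_mod b d, e1, e2]
  rw [card_product, card_range] at h1
  have h2 : d * (H / d) ≤ H := Nat.mul_div_le H d
  have h3 : 8 ≤ H / d := (Nat.le_div_iff_mul_le (by omega)).2 hH
  have h4 : 2 * Z.card * (H / d + 1) ≤ (d + 1) * (H / d + 1) := Nat.mul_le_mul_right _ hZ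
  obtain ⟨x, hx⟩ := Nat.exists_eq_add_of_le hd
  obtain ⟨k, hk⟩ := Nat.exists_eq_add_of_le h3
  rw [hk] at h1 h2 h4
  subst hx
  nlinarith [Nat.zero_le (x * k)]

end Pool.Agent.P.MP_d7de43_lc
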