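import Pool.Agent.P.MP_d7de43_lc.Approx
import Pool.Agent.P.MP_d7de43_lc.Lehmann

/-!
Correctness of the algorithm for good random numbers, and most random numbers are good.
-/

namespace Pool.Agent.P.MP_d7de43_lc

open Pool.Agent.Lib.Helper47 Finset

set_option maxHeartbeats 400000

attribute [local irreducible] tt LL TT WW ww HH mm RR bb KK EE MM qq count uu alpha dg NZ rho
  accT okT

theorem coeff_cases {q v ξ : ℚ} {c : ℤ} (hq : 8 ≤ q) (h0 : 0 ≤ v) (h1 : v < q)
    (h : |v - c * q - ξ| ≤ 1 / 16) (hξ : |ξ| ≤ 3) : c = 0 ∨ c = 1 := by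
  rw [abs_le] at h hξ
  have h2 : (c : ℚ) < 2 := by
    by_contra hc
    push Not at hc
    nlinarith
  have h3 : (-1 : ℚ) < c := by
    by_contra hc
    push Not at hc
    nlinarith
  have h4 : c < 2 := by exact_mod_cast h2
  have h5 : -1 < c := by exact_mod_cast h3
  omega

/-- the approximate residue -/
def vv (x : List Bool) (r c : ℕ) : ℚ := (qq x r : ℚ) * ((c % EE x : ℕ) : ℚ) / EE x

theorem vv_nonneg (x : List Bool) (r c : ℕ) : 0 ≤ vv x r c := by unfold vv; positivity

theorem qq_ge' (x : List Bool) (r : ℕ) : (8 : ℚ) ≤ qq x r := by exact_mod_cast qq_ge x r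

theorem vv_lt (x : List Bool) (r c : ℕ) : vv x r c < qq x r := by
  have hE : (0 : ℚ) < EE x := by exact_mod_cast EE_pos x
  have h : ((c % EE x : ℕ) : ℚ) < EE x := by exact_mod_cast Nat.mod_lt _ (EE_pos x)
  have := qq_ge' x r
  rw [vv, div_lt_iff₀ hE]
  gcongr

theorem small_iff (x : List Bool) (r c : ℕ) :
    small x r c = true ↔ vv x r c ≤ 2 ∨ qq x r - vv x r c ≤ 2 := by
  have hE : (0 : ℚ) < EE x := by exact_mod_cast EE_pos x
  have h : c % EE x ≤ EE x := (Nat.mod_lt _ (EE_pos x)).le
  have e : (qq x r : ℚ) - vv x r c = ((qq x r * (EE x - c % EE x) : ℕ) : ℚ) / EE x := by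
    rw [vv, Nat.cast_mul, Nat.cast_sub h]; field_simp
  rw [e, vv, div_le_iff₀ hE, div_le_iff₀ hE]
  simp only [small, Bool.or_eq_true, Nat.ble_eq]
  refine or_congr ?_ ?_ <;> norm_cast

theorem posb_iff (x : List Bool) (r c : ℕ) :
    posb x r c = true ↔ 1 / 4 ≤ vv x r c ∧ 2 * vv x r c < qq x r := by
  have hE : (0 : ℚ) < EE x := by exact_mod_cast EE_pos x
  have hq := qq_ge' x r
  simp only [posb, Bool.and_eq_true, Nat.ble_eq, Nat.blt_eq]
  refine and_congr ?_ ?_
  · rw [vv, div_le_div_iff₀ (by norm_num) hE, one_mul, mul_comm _ (4 : ℚ), ← mul_assoc]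
    norm_cast
  · rw [vv, ← mul_div_assoc, div_lt_iff₀ hE, mul_left_comm,
      mul_lt_mul_iff_right₀ (by linarith)]
    norm_cast

/-- the random modulus divides no nonzero integer close to a scaled value -/
def Good2 (x : List Bool) (r : ℕ) : Prop :=
  ∀ s < WW x, ∀ y : ℤ, |y - xs x s| ≤ 3 → (qq x r : ℤ) ∣ y → y = 0

theorem small_of_le {x : List Bool} (hx : validStr x = true) {r : ℕ} (hg : Good1 x r) (s : ℕ)
    (h : |xs x s| ≤ 1) : small x r (count x r s) = true := by
  obtain ⟨c, hc⟩ := approx hx r s hg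
  rw [← vv] at hc
  rw [small_iff]
  have h1 := coeff_cases (qq_ge' x r) (vv_nonneg _ _ _) (vv_lt _ _ _) hc (by linarith)
  rw [abs_le] at hc h
  rcases h1 with rfl | rfl
  · left; push_cast at hc; linarith
  · right; push_cast at hc; linarith

theorem le_of_small {x : List Bool} (hx : validStr x = true) {r : ℕ} (hg : Good1 x r)
    (hg2 : Good2 x r) (s : ℕ) (hs : s < WW x) (h : small x r (count x r s) = true) :
    |xs x s| ≤ 3 := by
  obtain ⟨c, hc⟩ := approx hx r s hg
  rw [← vv] at hc
  rw [small_iff] at h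
  have h0 := vv_nonneg x r (count x r s)
  have h1 := vv_lt x r (count x r s)
  rw [abs_le] at hc
  rcases h with h | h
  · have h2 : |((-c * qq x r : ℤ) : ℚ) - xs x s| ≤ 3 := by
      push_cast; rw [abs_le]; constructor <;> linarith
    have h3 := hg2 s hs _ h2 (Dvd.intro_left _ rfl)
    rw [h3] at h2
    simpa using h2
  · have h2 : |(((1 - c) * qq x r : ℤ) : ℚ) - xs x s| ≤ 3 := by
      push_cast; rw [abs_le]; constructor <;> linarith
    have h3 := hg2 s hs _ h2 (Dvd.intro_left _ rfl)
    rw [h3] at h2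
    simpa using h2

theorem posb_correct {x : List Bool} (hx : validStr x = true) {r : ℕ} (hg : Good1 x r) (s : ℕ)
    (h : |xs x s| ≤ 3) (h' : xs x s = 0 ∨ 1 / 2 < |xs x s|) :
    posb x r (count x r s) = true ↔ 0 < xs x s := by
  obtain ⟨c, hc⟩ := approx hx r s hg
  rw [← vv] at hc
  rw [posb_iff]
  have hq := qq_ge' x r
  have h0 := vv_nonneg x r (count x r s)
  have h2 := vv_lt x r (count x r s)
  have h1 := coeff_cases hq h0 h2 hc h
  rw [abs_le] at hc h
  rw [lt_abs] at h'
  rcases h1 with rfl | rfl <;> push_cast at hc <;> rcases h' with h' | h' | h' <;>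
    constructor <;> intro h3 <;> first | linarith | (constructor <;> linarith)

theorem xs_zero {x : List Bool} (hx : validStr x = true) : |xs x 0| ≤ 1 := by
  have h := x0_small hx
  have h1 : (1 : ℚ) ≤ 2 ^ bb x := one_le_pow₀ (by norm_num)
  have h2 := abs_nonneg (NZ (parseLines x) * rho (LL x) (TT x))
  rw [xs, pow_zero, one_mul]
  nlinarith

theorem xs_top {x : List Bool} (h : NZ (parseLines x) ≠ 0) : 1 < |xs x (WW x)| := by
  have h1 := rho_big x
  have h2 := rho_pos (LL x) (TT x) (TT_pos x)
  have h3 : (1 : ℚ) ≤ |(NZ (parseLines x) : ℚ)| := by exact_mod_cast Int.one_le_abs h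
  rw [xs, abs_mul, abs_mul, abs_of_pos h2, abs_of_pos (by positivity)]
  have h4 : (0 : ℚ) < 2 ^ WW x := by positivity
  nlinarith [mul_pos h4 h2]

theorem decision_correct (x : List Bool) (r : ℕ) (hg : Good1 x r) (hg2 : Good2 x r) :
    decision x r = true ↔ x ∈ PosSLP := by
  rw [mem_PosSLP, decision, Bool.and_eq_true]
  refine and_congr_right (fun hx => ?_)
  have e1 : loop (round x r) (2 * tt x) =
      loop (fun l => small x r (count x r (cand (2 * tt x) l))) (2 * tt x) :=
    loop_congr _ (fun l hl => by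
      have : Nat.blt l.length (2 * tt x) = true := by simpa [Nat.blt_eq] using hl
      simp only [round, expo, this, cond_true])
  obtain ⟨h1, h2, h3⟩ := greedy (fun s => small x r (count x r s)) (2 * tt x)
  rw [← e1, ← WW] at h1 h3
  rw [← e1] at h2
  have e2 : (loop (round x r) (2 * tt x + 1)).getD (2 * tt x) false =
      posb x r (count x r (msb (loop (round x r) (2 * tt x)) 0)) := by
    have : Nat.blt (2 * tt x) (2 * tt x) = false := by
      rw [Bool.eq_false_iff]; simp [Nat.blt_eq]
    rw [loop_succ, List.getD_append_right _ _ _ _ (by simp)]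
    simp only [length_loop, Nat.sub_self, List.getD_cons_zero]
    conv_lhs => rw [round, expo]
    simp only [length_loop, this, cond_false]
  rw [e2]
  generalize msb (loop (round x r) (2 * tt x)) 0 = s at h1 h2 h3
  have h4 : |xs x s| ≤ 3 := by
    rcases h2 with rfl | h2
    · have := xs_zero hx; linarith
    · exact le_of_small hx hg hg2 s h1 h2
  have h5 : xs x s = 0 ∨ 1 / 2 < |xs x s| := by
    by_cases hN : NZ (parseLines x) = 0
    · left; simp [xs, hN]
    · right
      have h6 : 1 < |xs x (s + 1)| := by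
        rcases h3 with h3 | h3
        · rw [h3]; exact xs_top hN
        · by_contra hc
          push Not at hc
          rw [small_of_le hx hg _ hc] at h3
          exact absurd h3 (by simp)
      have e : xs x (s + 1) = 2 * xs x s := by rw [xs, xs]; ring
      rw [e, abs_mul, abs_two] at h6
      linarith
  rw [posb_correct hx hg s h4 h5, xs, mul_pos_iff_of_pos_left (by positivity),
    mul_pos_iff_of_pos_right (rho_pos _ _ (TT_pos x))]
  exact Int.cast_pos

open Classical in
theorem card_bad1 (x : List Bool) :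
    4 ^ mm x * ((range (HH x ^ mm x)).filter (fun r => ¬ Good1 x r)).card ≤
      WW x * (3 ^ mm x * HH x ^ mm x) := by
  have hH : HH x = 8 * WW x := by rw [HH, ww, WW, pow_add]; ring
  have h : ∀ d : ℕ, ∃ S : Finset ℕ, 4 * S.card ≤ 3 * HH x ∧ (LL x < d → d < WW x →
      ∀ as : List ℕ, (∀ a ∈ as, a < HH x) → (∃ a ∈ as, a ∉ S) → (test d as = true ↔ d.Prime)) := by
    intro d
    by_cases hd : LL x < d ∧ d < WW x
    · obtain ⟨S, h1, h2⟩ := lehmann d (HH x) (by have := LL_ge x; omega) (by omega)
      exact ⟨S, h1, fun _ _ => h2⟩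
    · exact ⟨∅, by simp, fun h1 h2 => absurd ⟨h1, h2⟩ hd⟩
  choose S hS using h
  have := union_bound (range (WW x)) S (HH x) (mm x) (fun d _ => (hS d).1)
    (fun r => ¬ Good1 x r) (fun r hr => by
      by_contra hc
      push Not at hc
      refine hr (fun d h1 h2 => (hS d).2 h1 h2 _ ?_ ?_)
      · rw [dg]; exact digits_lt (HH_pos x) _ _
      · rw [dg]; exact hc d (mem_range.2 h2))
  rwa [card_range] at this

open Classical in
theorem card_bad2 {x : List Bool} (hx : validStr x = true) :
    4 ^ mm x * ((range (HH x ^ mm x)).filter (fun r => ¬ Good2 x r)).card ≤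
      WW x * 7 * (3 ^ mm x * HH x ^ mm x) := by
  let S : ℕ × ℤ → Finset ℕ := fun i => if ⌊xs x i.1⌋ + i.2 = 0 then ∅ else
    (range (HH x)).filter (fun h => ((RR x + h : ℕ) : ℤ) ∣ ⌊xs x i.1⌋ + i.2)
  have := union_bound (range (WW x) ×ˢ Icc (-3 : ℤ) 3) S (HH x) (mm x) (fun i hi => by
      simp only [S]
      split_ifs with h
      · simp
      · rw [mem_product, mem_range, mem_Icc] at hi
        have h1 : |xs x i.1| ≤ 2 ^ WW x := by
          have h2 := xs_zero hx
          rw [xs, pow_zero, one_mul] at h2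
          rw [xs, abs_mul, abs_of_pos (by positivity)]
          have h3 : (2 : ℚ) ^ i.1 ≤ 2 ^ WW x := pow_le_pow_right₀ (by norm_num) hi.1.le
          calc _ ≤ (2 : ℚ) ^ WW x * 1 := by gcongr
            _ = _ := mul_one _
        have h2 : |⌊xs x i.1⌋ + i.2| ≤ 2 ^ 2 ^ ww x := by
          have h3 := Int.floor_le (xs x i.1)
          have h4 := Int.lt_floor_add_one (xs x i.1)
          rw [abs_le] at h1
          have h5 : ⌊xs x i.1⌋ ≤ 2 ^ WW x := by
            have : (⌊xs x i.1⌋ : ℚ) ≤ 2 ^ WW x := by linarith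
            exact_mod_cast this
          have h6 : -2 ^ WW x < ⌊xs x i.1⌋ + 1 := by
            have : -(2 : ℚ) ^ WW x < ⌊xs x i.1⌋ + 1 := by linarith
            exact_mod_cast this
          have hW : 0 < WW x := by rw [WW]; positivity
          have h7 : (2 : ℤ) ^ (WW x + 3) ≤ 2 ^ 2 ^ ww x := by
            refine pow_le_pow_right₀ (by norm_num) ?_
            have : 2 ^ ww x = 8 * WW x := by rw [ww, WW, pow_add]; ring
            omega
          have h8 : (1 : ℤ) ≤ 2 ^ WW x := one_le_pow₀ (by norm_num)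
          rw [pow_add] at h7
          rw [abs_le]; constructor <;> linarith [hi.2.1, hi.2.2]
        have h3 := few_divisors (ww x) _ h h2
        rw [← HH, ← RR] at h3
        omega)
    (fun r => ¬ Good2 x r) (fun r hr => by
      simp only [Good2] at hr
      push Not at hr
      obtain ⟨s, hs, y, h1, h2, h3⟩ := hr
      have h4 := Int.floor_le (xs x s)
      have h5 := Int.lt_floor_add_one (xs x s)
      rw [abs_le] at h1
      have h6 : -3 ≤ y - ⌊xs x s⌋ := by
        have : (-3 : ℚ) ≤ y - ⌊xs x s⌋ := by linarith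
        exact_mod_cast this
      have h7 : y - ⌊xs x s⌋ < 4 := by
        have : (y : ℚ) - ⌊xs x s⌋ < 4 := by linarith
        exact_mod_cast this
      refine ⟨(s, y - ⌊xs x s⌋), by simp [hs]; omega, fun a ha => ?_⟩
      simp only [S, add_sub_cancel, if_neg h3, mem_filter, mem_range]
      refine ⟨digits_lt (HH_pos x) _ _ a ha, dvd_trans ?_ h2⟩
      rw [qq, dg]
      exact Int.natCast_dvd_natCast.2 (List.dvd_prod (List.mem_map.2 ⟨a, ha, rfl⟩)))
  simpa using this

theorem good2_of_invalid {x : List Bool} (hx : ¬ validStr x = true) (r : ℕ) :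
    decision x r = true ↔ x ∈ PosSLP := by
  simp [mem_PosSLP, decision, hx]

open Classical in
theorem card_good (x : List Bool) : 2 * HH x ^ mm x ≤
    3 * ((range (HH x ^ mm x)).filter (fun r => decision x r = true ↔ x ∈ PosSLP)).card := by
  by_cases hx : validStr x = true
  · have h1 := card_bad1 x
    have h2 := card_bad2 hx
    have h3 : HH x ^ mm x ≤
        ((range (HH x ^ mm x)).filter (fun r => decision x r = true ↔ x ∈ PosSLP)).card +
        (((range (HH x ^ mm x)).filter (fun r => ¬ Good1 x r)).card +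
        ((range (HH x ^ mm x)).filter (fun r => ¬ Good2 x r)).card) := by
      conv_lhs => rw [← card_range (HH x ^ mm x)]
      refine le_trans (card_le_card (fun r hr => ?_))
        ((card_union_le _ _).trans (Nat.add_le_add_left (card_union_le _ _) _))
      simp only [mem_union, mem_filter, hr, true_and]
      by_cases g1 : Good1 x r
      · by_cases g2 : Good2 x r
        · exact Or.inl (decision_correct x r g1 g2)
        · exact Or.inr (Or.inr g2)
      · exact Or.inr (Or.inl g1)
    have h4 : WW x * 32 * 3 ^ mm x ≤ 4 ^ mm x := by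
      have e : mm x = 3 * (2 * tt x + 5) := by rw [mm]; ring
      have e2 : WW x * 32 = 2 ^ (2 * tt x + 5) := by rw [WW, pow_add]; norm_num
      rw [e2, e, pow_mul, pow_mul, ← mul_pow]
      exact Nat.pow_le_pow_left (by norm_num) _
    have h5 : 0 < WW x * 3 ^ mm x := by rw [WW]; positivity
    generalize ((range (HH x ^ mm x)).filter (fun r => ¬ Good1 x r)).card = b1 at *
    generalize ((range (HH x ^ mm x)).filter (fun r => ¬ Good2 x r)).card = b2 at *
    generalize HH x ^ mm x = Z at *
    have h6 : WW x * 3 ^ mm x * (32 * (b1 + b2)) ≤ WW x * 3 ^ mm x * (8 * Z) := by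
      calc WW x * 3 ^ mm x * (32 * (b1 + b2)) = WW x * 32 * 3 ^ mm x * (b1 + b2) := by ring
        _ ≤ 4 ^ mm x * (b1 + b2) := Nat.mul_le_mul_right _ h4
        _ ≤ _ := by nlinarith
    have h7 := Nat.le_of_mul_le_mul_left h6 h5
    omega
  · rw [filter_true_of_mem (fun r _ => good2_of_invalid hx r), card_range]
    omega

theorem main : ∃ A, InPP A ∧ InBPPRel A PosSLP := by
  classical
  refine ⟨Orc, inPP_Orc, _,
    (2 * (Polynomial.X + 20) + 3) * (6 * (Polynomial.X + 20) + 15), opt_decision.inPRel,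
    fun x => ?_⟩
  have e : ((2 * (Polynomial.X + 20) + 3) * (6 * (Polynomial.X + 20) + 15) : Polynomial ℕ).eval
      x.length = ww x * mm x := by
    simp [ww, mm, tt]
  rw [e, cnt_msb _ _ (fun r => decision x r = true ↔ x ∈ PosSLP) (fun w _ => by simp),
    pow_mul, ← HH]
  exact card_good x

end Pool.Agent.P.MP_d7de43_lc
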