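import Pool.Agent.Lib.Helper47.Bridge
import Pool.Agent.P.MP_d7de43_lc.Defs

/-!
Polynomial time with an oracle: closure properties.
-/

namespace Pool.Agent.P.MP_d7de43_lc

open Pool.Agent.Lib.Helper47

/-- a list of bits, each computed from the earlier ones -/
def loop (g : List Bool → Bool) (k : ℕ) : List Bool := (fun l => l ++ [g l])^[k] []

@[simp] theorem loop_zero (g : List Bool → Bool) : loop g 0 = [] := rfl

theorem loop_succ (g : List Bool → Bool) (k : ℕ) : loop g (k + 1) = loop g k ++ [g (loop g k)] := by
  rw [loop, Function.iterate_succ_apply']; rfl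

@[simp] theorem length_loop (g : List Bool → Bool) (k : ℕ) : (loop g k).length = k := by
  induction k with
  | zero => rfl
  | succ k ih => simp [loop_succ, ih]

theorem take_loop (g : List Bool → Bool) {j k : ℕ} (h : j ≤ k) : (loop g k).take j = loop g j := by
  induction k, h using Nat.le_induction with
  | base => exact List.take_of_length_le (by simp)
  | succ k h ih => rw [loop_succ, List.take_append_of_le_length (by simpa using h), ih]

theorem loop_congr {g g' : List Bool → Bool} (k : ℕ) (h : ∀ l, l.length < k → g l = g' l) :
    loop g k = loop g' k := by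
  induction k with
  | zero => rfl
  | succ k ih =>
    rw [loop_succ, loop_succ, ih (fun l hl => h l (by omega)), h _ (by simp)]

section
variable {α β γ : Type} [Enc α] [Enc β] [Enc γ]

theorem pt_eval (P : Polynomial ℕ) {f : α → ℕ} (hf : PT f) : PT fun a => P.eval (f a) := by
  induction P using Polynomial.induction_on' with
  | add p q hp hq => exact (PT.add hp hq).of_eq fun a => by simp
  | monomial k c =>
    exact (PT.mul (PT.const c) (PT.pow hf (PT.const k) (PB.const k))).of_eq fun a => by simp

theorem pt_size : PT (fun a : α => size a) := (PT.length PT.code).of_eq fun _ => rfl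

theorem ps_comp {g : β → ℕ} {h : α → β} (hg : PS g) (hh : PT h) : PS fun a => g (h a) :=
  hh.size_le.trans (hg.reindex h)

theorem ps_length {l : α → List β} (h : PT l) : PS fun a => (l a).length :=
  h.size_le.mono fun a => (length_lt_size (l a)).le

/-- polynomial time with oracle `A` -/
def OPT (A : List Bool → Bool) (f : α → β) : Prop :=
  ∃ (Q : α × List Bool → List Bool) (O : α × List Bool → β) (N : α → ℕ),
    PT Q ∧ PT O ∧ PT N ∧ PS N ∧ ∀ a, f a = O (a, loop (fun l => A (Q (a, l))) (N a))

theorem OPT.pre {A : List Bool → Bool} {f : β → γ} {h : α → β} (hf : OPT A f) (hh : PT h) :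
    OPT A (fun a => f (h a)) := by
  obtain ⟨Q, O, N, hQ, hO, hN, hb, e⟩ := hf
  exact ⟨fun p => Q (h p.1, p.2), fun p => O (h p.1, p.2), fun a => N (h a), by fun_prop,
    by fun_prop, by fun_prop, ps_comp hb hh, fun a => e (h a)⟩

theorem OPT.post {A : List Bool → Bool} {f : α → β} {g : α × β → γ} (hf : OPT A f) (hg : PT g) :
    OPT A (fun a => g (a, f a)) := by
  obtain ⟨Q, O, N, hQ, hO, hN, hb, e⟩ := hf
  exact ⟨Q, fun p => g (p.1, O p), N, hQ, by fun_prop, hN, hb, fun a => by simp only [e a]⟩

theorem OPT.of_eq {A : List Bool → Bool} {f g : α → β} (hf : OPT A f) (h : ∀ a, f a = g a) :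
    OPT A g := (funext h : f = g) ▸ hf

/-- decoding the answers of the oracle block by block -/
def dec (O : List Bool → List Bool → Bool) (N : List Bool → ℕ) (n : ℕ) (as : List Bool) (k : ℕ) :
    List Bool :=
  (List.range k).foldl (fun l r => l ++ [O l (((as.drop (r * n)).take n).take (N l))]) []

theorem dec_succ (O : List Bool → List Bool → Bool) (N : List Bool → ℕ) (n : ℕ) (as : List Bool)
    (k : ℕ) : dec O N n as (k + 1) = dec O N n as k ++
      [O (dec O N n as k) (((as.drop (k * n)).take n).take (N (dec O N n as k)))] := by
  rw [dec, List.range_succ, List.foldl_append]; rfl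

theorem loop_blocks (A : List Bool → Bool) (Q : List Bool → List Bool → List Bool)
    (O : List Bool → List Bool → Bool) (N : List Bool → ℕ) (n M : ℕ) (hn : 0 < n)
    (g : List Bool → Bool) (hg : ∀ l, g l = O l (loop (fun u => A (Q l u)) (N l)))
    (hN : ∀ l, l.length ≤ M → N l ≤ n) (r : ℕ) (hr : r ≤ M) (as : List Bool)
    (has : loop (fun as => A (Q (dec O N n as (as.length / n)) (as.drop (as.length / n * n))))
      (r * n) <+: as) : dec O N n as r = loop g r := by
  induction r generalizing as with
  | zero => rfl
  | succ r ih =>
    set G : List Bool → Bool :=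
      fun as => A (Q (dec O N n as (as.length / n)) (as.drop (as.length / n * n))) with hG
    have key : ∀ i, i ≤ n → loop G (r * n + i) =
        loop G (r * n) ++ loop (fun u => A (Q (loop g r) u)) i := by
      intro i hi
      induction i with
      | zero => simp
      | succ i ihi =>
        rw [← add_assoc, loop_succ, loop_succ, ihi (by omega), List.append_assoc]
        congr 3
        have hlen : (loop G (r * n) ++ loop (fun u => A (Q (loop g r) u)) i).length / n = r := by
          simp only [List.length_append, length_loop]
          rw [mul_comm, Nat.mul_add_div hn, Nat.div_eq_of_lt (by omega), add_zero]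
        simp only [hG]
        rw [← hG, hlen, ih (by omega) _ (List.prefix_append _ _),
          List.drop_left' (by simp)]
    have h1 := key n le_rfl
    have e : (r + 1) * n = r * n + n := by ring
    rw [e, h1] at has
    obtain ⟨t, rfl⟩ := has
    rw [dec_succ, ih (by omega) _ (by rw [List.append_assoc]; exact List.prefix_append _ _),
      loop_succ, hg (loop g r), List.append_assoc, List.drop_left' (by simp),
      List.take_left' (by simp), take_loop _ (hN _ (by simp; omega))]

theorem OPT.loop {A : List Bool → Bool} {g : α × List Bool → Bool} {M : α → ℕ} (hg : OPT A g)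
    (hM : PT M) (hb : PS M) : OPT A (fun a => loop (fun l => g (a, l)) (M a)) := by
  obtain ⟨Q, O, N, hQ, hO, hN, ⟨p, hp⟩, e⟩ := hg
  let n : α → ℕ := fun a => p.eval (size a + 4 * M a + 2) + 1
  have hn : PT n := by
    have h1 := pt_size (α := α)
    exact PT.add (pt_eval p (by fun_prop)) (PT.const 1)
  have hnb : PS n :=
    (((PB.self.add ((PB.const 4).mul hb)).add (PB.const 2)).eval p).add (PB.const 1)
  let D : α × List Bool → List Bool := fun x =>
    dec (fun l u => O ((x.1, l), u)) (fun l => N (x.1, l)) (n x.1) x.2 (x.2.length / n x.1)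
  have hD : PT D := by
    refine PT.foldl_add (f := fun (x : α × List Bool) l r =>
      l ++ [O ((x.1, l), ((x.2.drop (r * n x.1)).take (n x.1)).take (N (x.1, l)))])
      (by fun_prop) (PT.range_of_le (l := fun x : α × List Bool => x.2) (by fun_prop) (by fun_prop)
        (fun x => Nat.div_le_self _ _)) (PT.const []) (fun _ => 4) (PB.const 4) ?_
    intro x t r _
    have h1 := size_append t
      [O ((x.1, t), ((x.2.drop (r * n x.1)).take (n x.1)).take (N (x.1, t)))]
    have h2 := size_bool (O ((x.1, t), ((x.2.drop (r * n x.1)).take (n x.1)).take (N (x.1, t))))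
    simp only [size_cons, size_nil] at h1
    omega
  refine ⟨fun x => Q ((x.1, D x), x.2.drop (x.2.length / n x.1 * n x.1)), D,
    fun a => M a * n a, by fun_prop, hD, by fun_prop, hb.mul hnb, fun a => ?_⟩
  have hpos : 0 < n a := Nat.succ_pos _
  have := loop_blocks A (fun l u => Q ((a, l), u)) (fun l u => O ((a, l), u)) (fun l => N (a, l))
    (n a) (M a) hpos (fun l => g (a, l)) (fun l => e (a, l)) (fun l hl => by
      refine (hp (a, l)).trans ((eval_mono p ?_).trans (Nat.le_succ _))
      have := size_bits_le l
      simp only [size_pair]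
      omega) (M a) le_rfl _ (List.prefix_refl _)
  simp only [D, length_loop, Nat.mul_div_cancel _ hpos]
  exact this.symm

end

/-- first component of a pair of strings -/
def fstP (y : List Bool) : List Bool := (blocks y).headD []

/-- second component of a pair of strings -/
def sndP (y : List Bool) : List Bool := y.drop (2 * (fstP y).length + 1)

theorem pair_eq (x w : List Bool) : pair x w = N487b59b3.delimit x ++ w := by
  rw [delimit_eq, pair]; simp

@[simp] theorem fstP_pair (x w : List Bool) : fstP (pair x w) = x := by
  rw [pair_eq, fstP, blocks_head]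

theorem length_pair (x w : List Bool) : (pair x w).length = 2 * x.length + 1 + w.length := by
  simp [pair, List.length_flatMap]; omega

@[simp] theorem sndP_pair (x w : List Bool) : sndP (pair x w) = w := by
  rw [sndP, fstP_pair, pair]
  have : (x.flatMap (fun b => [true, b]) ++ false :: w) =
      (x.flatMap (fun b => [true, b]) ++ [false]) ++ w := by simp
  rw [this, List.drop_left']
  simp [List.length_flatMap]; omega

@[fun_prop] theorem pt_fstP {α : Type} [Enc α] {f : α → List Bool} (hf : PT f) :
    PT fun a => fstP (f a) := by
  have h := PT.blocks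
  unfold fstP; fun_prop

@[fun_prop] theorem pt_sndP {α : Type} [Enc α] {f : α → List Bool} (hf : PT f) :
    PT fun a => sndP (f a) := by
  unfold sndP; fun_prop

@[fun_prop] theorem pt_pair {α : Type} [Enc α] {f g : α → List Bool} (hf : PT f) (hg : PT g) :
    PT fun a => pair (f a) (g a) := by
  unfold pair; fun_prop

theorem inFP_of_pt {f : List Bool → List Bool} (hf : PT f) : InFP f :=
  PT.computableInPolyTime id id f hf (fun _ => rfl)

theorem exists_poly_length {g : List Bool → ℕ} (hg : PS g) :
    ∃ p : Polynomial ℕ, ∀ x, g x ≤ p.eval x.length :=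
  ((((PB.const 4).mul PB.self).add (PB.const 1)).mono size_bits_le : PB List.length size).trans hg

open Classical in
theorem OPT.inPRel {A : Set (List Bool)} {g : List Bool → Bool}
    (hg : OPT (fun y => decide (y ∈ A)) g) : InPRel A {z | g z = true} := by
  obtain ⟨Q, O, N, hQ, hO, hN, hb, e⟩ := hg
  obtain ⟨p, hp⟩ := exists_poly_length hb
  refine ⟨fun y => Q (fstP y, sndP y), fun y => [O (fstP y, (sndP y).take (N (fstP y)))], p,
    inFP_of_pt (by fun_prop), inFP_of_pt (by fun_prop), fun z => ?_⟩
  have h1 : answers A (fun y => Q (fstP y, sndP y)) z (p.eval z.length) =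
      MP_d7de43_lc.loop (fun l => decide (Q (z, l) ∈ A)) (p.eval z.length) := by
    simp [answers, MP_d7de43_lc.loop]
  simp only [h1, fstP_pair, sndP_pair, take_loop _ (hp z), Set.mem_ofPred_eq, e z]
  simp

end Pool.Agent.P.MP_d7de43_lc
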