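import Pool.Agent.P.MP_d7de43_lc.Slp

/-!
The counting function, the oracle, and the oracle algorithm.
-/

namespace Pool.Agent.P.MP_d7de43_lc

open Pool.Agent.Lib.Helper47 Finset

/-- parameters -/
def tt (x : List Bool) : ℕ := x.length + 20
/-- parameters -/
def LL (x : List Bool) : ℕ := 2 ^ tt x - 1
/-- parameters -/
def TT (x : List Bool) : ℕ := LL x * LL x / 5 + 1
/-- parameters -/
def WW (x : List Bool) : ℕ := 2 ^ (2 * tt x)
/-- parameters -/
def ww (x : List Bool) : ℕ := 2 * tt x + 3
/-- parameters -/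
def HH (x : List Bool) : ℕ := 2 ^ ww x
/-- parameters -/
def mm (x : List Bool) : ℕ := 6 * tt x + 15
/-- parameters -/
def RR (x : List Bool) : ℕ := 2 ^ (2 * ww x + 2)
/-- parameters -/
def bb (x : List Bool) : ℕ := mm x * (2 * ww x + 3)
/-- parameters -/
def KK (x : List Bool) : ℕ := 10 * tt x + bb x + 5
/-- parameters -/
def EE (x : List Bool) : ℕ := 2 ^ KK x
/-- parameters -/
def MM (x : List Bool) : ℕ := 10 * tt x + KK x
/-- the random digits -/
def dg (x : List Bool) (r : ℕ) : List ℕ := digits (HH x) (mm x) r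
/-- the random modulus -/
def qq (x : List Bool) (r : ℕ) : ℕ := ((dg x r).map (fun h => RR x + h)).prod

/-- the residue of `⌊2^s / q⌋ * N` modulo `p` -/
def alpha (x : List Bool) (r s p : ℕ) : ℕ :=
  pw 2 s (p * qq x r) / qq x r * evalMod (parseLines x) p

/-- admissible tuples -/
def okT (x : List Bool) (r j p i ω₁ ω₂ : ℕ) : Bool :=
  Nat.ble j (LL x) && Nat.ble i (LL x) && test p (dg x r) && Nat.blt (LL x) p &&
    (TT x + j) % p == 0 && Nat.blt ω₁ p && Nat.blt ω₂ p

/-- accepted tuples -/
def accT (x : List Bool) (r s j p i ω₁ ω₂ z : ℕ) : Bool :=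
  okT x r j p i ω₁ ω₂ &&
    Nat.ble ((z + 1) * p) (EE x * uu (LL x) (TT x) (alpha x r s p) j p i ω₁ ω₂)

/-- accepted witnesses -/
def acc (x : List Bool) (r s n : ℕ) : Bool :=
  accT x r s (n % WW x) (n / WW x % WW x) (n / WW x / WW x % WW x)
    (n / WW x / WW x / WW x % WW x) (n / WW x / WW x / WW x / WW x % WW x)
    (n / WW x / WW x / WW x / WW x / WW x)

/-- the counting function -/
def count (x : List Bool) (r s : ℕ) : ℕ :=
  ((range (2 ^ MM x)).filter (fun n => acc x r s n = true)).card

/-- the test used by the majority machine -/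
def verT (x : List Bool) (τ s r D n : ℕ) : Bool :=
  bif Nat.ble D n then Nat.blt (n - D) (2 ^ MM x) && acc x r s (n - D) else Nat.ble (n + τ) D

/-- the majority machine -/
def ver (v : List Bool) : List Bool :=
  [verT (fstP (fstP v)) (((parseLines (sndP (fstP v))).headD []).getD 0 0)
    (((parseLines (sndP (fstP v))).headD []).getD 1 0)
    (((parseLines (sndP (fstP v))).headD []).getD 2 0) (2 ^ ((sndP v).length - 1))
    (msb (sndP v) 0)]

/-- the length of the witnesses -/
noncomputable def wlen : Polynomial ℕ :=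
  20 * (Polynomial.X + 20) + (6 * (Polynomial.X + 20) + 15) * (4 * (Polynomial.X + 20) + 9) + 7

/-- the oracle -/
def Orc : Set (List Bool) :=
  {y | 2 ^ wlen.eval y.length < 2 * cnt (wlen.eval y.length) (fun w => ver (pair y w) = [true])}

/-- a query -/
def query (x : List Bool) (r s τ : ℕ) : List Bool := pair x (encLines [[τ, s, r]])

/-- the approximate residue is close to zero -/
def small (x : List Bool) (r c : ℕ) : Bool :=
  Nat.ble (qq x r * (c % EE x)) (2 * EE x) || Nat.ble (qq x r * (EE x - c % EE x)) (2 * EE x)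

/-- the approximate residue is positive -/
def posb (x : List Bool) (r c : ℕ) : Bool :=
  Nat.ble (EE x) (4 * qq x r * (c % EE x)) && Nat.blt (2 * (c % EE x)) (EE x)

/-- the exponent used in the next round -/
def expo (x l : List Bool) : ℕ :=
  bif Nat.blt l.length (2 * tt x) then cand (2 * tt x) l else msb l 0

/-- one round of the algorithm -/
def round (x : List Bool) (r : ℕ) (l : List Bool) : Bool :=
  bif Nat.blt l.length (2 * tt x) then small x r (count x r (expo x l))
  else posb x r (count x r (expo x l))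

/-- the decision on input `x` with random number `r` -/
def decision (x : List Bool) (r : ℕ) : Bool :=
  validStr x && (loop (round x r) (2 * tt x + 1)).getD (2 * tt x) false

section
variable {α : Type} [Enc α] {x : α → List Bool}

theorem ps_tt (hx : PT x) : PS fun a => tt (x a) := (ps_length hx).add (PB.const 20)
theorem ps_ww (hx : PT x) : PS fun a => ww (x a) :=
  ((PB.const 2).mul (ps_tt hx)).add (PB.const 3)
theorem ps_mm (hx : PT x) : PS fun a => mm (x a) :=
  ((PB.const 6).mul (ps_tt hx)).add (PB.const 15)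
theorem ps_bb (hx : PT x) : PS fun a => bb (x a) :=
  (ps_mm hx).mul (((PB.const 2).mul (ps_ww hx)).add (PB.const 3))
theorem ps_KK (hx : PT x) : PS fun a => KK (x a) :=
  (((PB.const 10).mul (ps_tt hx)).add (ps_bb hx)).add (PB.const 5)
theorem ps_MM (hx : PT x) : PS fun a => MM (x a) :=
  ((PB.const 10).mul (ps_tt hx)).add (ps_KK hx)

@[fun_prop] theorem pt_tt (hx : PT x) : PT fun a => tt (x a) := by unfold tt; fun_prop
@[fun_prop] theorem pt_ww (hx : PT x) : PT fun a => ww (x a) := by unfold ww; fun_prop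
@[fun_prop] theorem pt_mm (hx : PT x) : PT fun a => mm (x a) := by unfold mm; fun_prop
@[fun_prop] theorem pt_bb (hx : PT x) : PT fun a => bb (x a) := by unfold bb; fun_prop
@[fun_prop] theorem pt_KK (hx : PT x) : PT fun a => KK (x a) := by unfold KK; fun_prop
@[fun_prop] theorem pt_MM (hx : PT x) : PT fun a => MM (x a) := by unfold MM; fun_prop
@[fun_prop] theorem pt_LL (hx : PT x) : PT fun a => LL (x a) :=
  PT.sub (PT.pow (PT.const 2) (pt_tt hx) (ps_tt hx)) (PT.const 1)
@[fun_prop] theorem pt_TT (hx : PT x) : PT fun a => TT (x a) := by unfold TT; fun_prop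
@[fun_prop] theorem pt_WW (hx : PT x) : PT fun a => WW (x a) :=
  PT.pow (PT.const 2) (by fun_prop) ((PB.const 2).mul (ps_tt hx))
@[fun_prop] theorem pt_HH (hx : PT x) : PT fun a => HH (x a) :=
  PT.pow (PT.const 2) (by fun_prop) (ps_ww hx)
@[fun_prop] theorem pt_RR (hx : PT x) : PT fun a => RR (x a) :=
  PT.pow (PT.const 2) (by fun_prop) (((PB.const 2).mul (ps_ww hx)).add (PB.const 2))
@[fun_prop] theorem pt_EE (hx : PT x) : PT fun a => EE (x a) :=
  PT.pow (PT.const 2) (by fun_prop) (ps_KK hx)

theorem ps_fst {β : Type} [Enc β] {g : α → ℕ} (h : PS g) : PS fun y : α × β => g y.1 :=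
  ps_comp h (PT.fst PT.id)

@[fun_prop] theorem pt_dg {r : α → ℕ} (hx : PT x) (hr : PT r) : PT fun a => dg (x a) (r a) := by
  have h1 : PT fun y : α × ℕ => HH (x y.1) ^ min y.2 (mm (x y.1)) :=
    PT.pow (by fun_prop) (by fun_prop) ((ps_fst (ps_mm hx)).mono fun _ => min_le_right _ _)
  have h2 : PT fun a => (List.range (mm (x a))).map
      (fun i => r a / HH (x a) ^ min i (mm (x a)) % HH (x a)) :=
    PT.map (by fun_prop) (PT.range (pt_mm hx) (ps_mm hx))
  refine h2.of_eq fun a => List.map_congr_left fun i hi => ?_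
  rw [min_eq_left (List.mem_range.1 hi).le]

theorem size_mul_le (a b : ℕ) : (a * b).size ≤ a.size + b.size := by
  rw [Nat.size_le, pow_add]
  exact Nat.mul_lt_mul'' (Nat.lt_size_self a) (Nat.lt_size_self b)

@[fun_prop] theorem pt_prod {l : α → List ℕ} (hl : PT l) : PT fun a => (l a).prod := by
  have e : ∀ u : List ℕ, u.foldl (fun t x => t * x) 1 = u.prod := fun u => by
    rw [List.prod_eq_foldl]
  refine (PT.foldl (f := fun _ t x => t * x) (by fun_prop) hl (PT.const 1)
    (fun a => 4 * size (l a) + 1) (((PB.const 4).mul hl.size_le).add (PB.const 1))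
    (fun a u hu => ?_)).of_eq (fun a => e _)
  rw [e]
  have h1 : ∀ u : List ℕ, u.prod.size ≤ size u := by
    intro u
    induction u with
    | nil => simp
    | cons y u ih =>
      have h2 := size_mul_le y u.prod
      have h3 := natSize_lt_size y
      simp only [List.prod_cons, size_cons]
      omega
  have h2 := size_nat_le_size u.prod
  have h3 := h1 u
  have h4 := size_sublist hu.sublist
  omega

@[fun_prop] theorem pt_qq {r : α → ℕ} (hx : PT x) (hr : PT r) : PT fun a => qq (x a) (r a) := by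
  unfold qq; fun_prop

@[fun_prop] theorem pt_alpha {r s p : α → ℕ} (hx : PT x) (hr : PT r) (hs : PT s) (hp : PT p) :
    PT fun a => alpha (x a) (r a) (s a) (p a) := by
  unfold alpha; fun_prop

@[fun_prop] theorem pt_okT {r j p i ω₁ ω₂ : α → ℕ} (hx : PT x) (hr : PT r) (h1 : PT j) (h2 : PT p)
    (h3 : PT i) (h4 : PT ω₁) (h5 : PT ω₂) :
    PT fun a => okT (x a) (r a) (j a) (p a) (i a) (ω₁ a) (ω₂ a) := by
  unfold okT; fun_prop

@[fun_prop] theorem pt_accT {r s j p i ω₁ ω₂ z : α → ℕ} (hx : PT x) (hr : PT r) (hs : PT s)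
    (h1 : PT j) (h2 : PT p) (h3 : PT i) (h4 : PT ω₁) (h5 : PT ω₂) (h6 : PT z) :
    PT fun a => accT (x a) (r a) (s a) (j a) (p a) (i a) (ω₁ a) (ω₂ a) (z a) := by
  unfold accT; fun_prop

@[fun_prop] theorem pt_acc {r s n : α → ℕ} (hx : PT x) (hr : PT r) (hs : PT s) (hn : PT n) :
    PT fun a => acc (x a) (r a) (s a) (n a) := by
  unfold acc; fun_prop

@[fun_prop] theorem pt_verT {τ s r D n : α → ℕ} (hx : PT x) (h1 : PT τ) (h2 : PT s) (h3 : PT r)
    (h4 : PT D) (h5 : PT n) : PT fun a => verT (x a) (τ a) (s a) (r a) (D a) (n a) := by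
  have h : PT fun a => 2 ^ MM (x a) := PT.pow (PT.const 2) (pt_MM hx) (ps_MM hx)
  unfold verT; fun_prop

@[fun_prop] theorem pt_query {r s τ : α → ℕ} (hx : PT x) (hr : PT r) (hs : PT s) (hτ : PT τ) :
    PT fun a => query (x a) (r a) (s a) (τ a) := by
  unfold query; fun_prop

@[fun_prop] theorem pt_small {r c : α → ℕ} (hx : PT x) (hr : PT r) (hc : PT c) :
    PT fun a => small (x a) (r a) (c a) := by
  unfold small; fun_prop

@[fun_prop] theorem pt_posb {r c : α → ℕ} (hx : PT x) (hr : PT r) (hc : PT c) :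
    PT fun a => posb (x a) (r a) (c a) := by
  unfold posb; fun_prop

theorem pt_cand {B : α → ℕ} {l : α → List Bool} (hB : PT B) (hb : PS B) (hl : PT l) :
    PT fun a => cand (B a) (l a) :=
  PT.mul (by fun_prop) (PT.pow (PT.const 2) (by fun_prop) (hb.mono fun _ => by omega))

@[fun_prop] theorem pt_expo {l : α → List Bool} (hx : PT x) (hl : PT l) :
    PT fun a => expo (x a) (l a) := by
  have h : PT fun a => cand (2 * tt (x a)) (l a) :=
    pt_cand (by fun_prop) ((PB.const 2).mul (ps_tt hx)) hl
  unfold expo; fun_prop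

end

theorem pt_ver : PT ver := by
  have h : PT fun v : List Bool => 2 ^ ((sndP v).length - 1) :=
    PT.pow (PT.const 2) (by fun_prop)
      ((ps_length (l := fun v => sndP v) (by fun_prop)).mono fun _ => Nat.sub_le _ _)
  unfold ver; fun_prop

theorem inPP_Orc : InPP Orc := ⟨ver, wlen, inFP_of_pt pt_ver, fun _ => Iff.rfl⟩

theorem count_le (x : List Bool) (r s : ℕ) : count x r s ≤ 2 ^ MM x :=
  (card_filter_le _ _).trans (card_range _).le

theorem wlen_ge (x y : List Bool) (h : x.length ≤ y.length) : MM x + 2 ≤ wlen.eval y.length := by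
  have e : wlen.eval x.length = MM x + 2 := by
    simp [wlen, MM, KK, bb, mm, ww, tt]; ring
  rw [← e]; exact eval_mono _ h

theorem card_verT (x : List Bool) (τ s r D : ℕ) (hD : 2 ^ MM x ≤ D) (h1 : 1 ≤ τ) (h2 : τ ≤ D) :
    ((range (D + D)).filter (fun n => verT x τ s r D n = true)).card + τ =
      count x r s + D + 1 := by
  rw [card_filter, sum_range_add]
  have e1 : ∑ n ∈ range D, (if verT x τ s r D n = true then 1 else 0) = D + 1 - τ := by
    rw [← card_filter, ← card_range (D + 1 - τ)]
    congr 1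
    ext n
    simp only [mem_filter, mem_range, verT]
    constructor
    · rintro ⟨h3, h4⟩
      have : Nat.ble D n = false := by rw [Bool.eq_false_iff]; simp; omega
      simp [this] at h4; omega
    · intro h3
      have : Nat.ble D n = false := by rw [Bool.eq_false_iff]; simp; omega
      simp [this]; omega
  have e2 : ∑ n ∈ range D, (if verT x τ s r D (D + n) = true then 1 else 0) = count x r s := by
    rw [← card_filter, count]
    refine congrArg card ?_
    ext n
    have : Nat.ble D (D + n) = true := by simp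
    simp only [mem_filter, mem_range, verT, this, cond_true, Nat.add_sub_cancel_left,
      Bool.and_eq_true, Nat.blt_eq]
    constructor
    · rintro ⟨-, h⟩; exact h
    · rintro ⟨h3, h4⟩; exact ⟨by omega, h3, h4⟩
  rw [e1, e2]; omega

theorem query_mem (x : List Bool) (r s τ : ℕ) (h1 : 1 ≤ τ) (h2 : τ < 2 ^ (MM x + 1)) :
    query x r s τ ∈ Orc ↔ τ ≤ count x r s := by
  have h3 := wlen_ge x (query x r s τ) (by rw [query, length_pair]; omega)
  simp only [Orc, Set.mem_ofPred_eq]
  generalize wlen.eval (query x r s τ).length = P at h3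
  obtain ⟨P, rfl⟩ : ∃ P', P = P' + 1 := ⟨P - 1, by omega⟩
  have h4 : 2 ^ (MM x + 1) ≤ 2 ^ P := Nat.pow_le_pow_right (by norm_num) (by omega)
  rw [cnt_msb (P + 1) _ (fun n => verT x τ s r (2 ^ P) n = true) (fun w hw => by
    simp [ver, query, parseLines_encLines, hw])]
  have h5 := card_verT x τ s r (2 ^ P) (by rw [pow_succ] at h4; omega) h1 (by omega)
  rw [pow_succ, mul_two]
  omega

open Classical in
theorem opt_count : OPT (fun y => decide (y ∈ Orc))
    (fun a : List Bool × ℕ × ℕ => count a.1 a.2.1 a.2.2) := by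
  have hb : PS fun a : List Bool × ℕ × ℕ => MM a.1 + 1 :=
    (ps_MM (by fun_prop)).add (PB.const 1)
  have hc : PT fun a : (List Bool × ℕ × ℕ) × List Bool => cand (MM a.1.1 + 1) a.2 :=
    pt_cand (by fun_prop) (ps_fst hb) (by fun_prop)
  refine ⟨fun a => query a.1.1 a.1.2.1 a.1.2.2 (cand (MM a.1.1 + 1) a.2), fun a => msb a.2 0,
    fun a => MM a.1 + 1, by fun_prop, by fun_prop, by fun_prop, hb, fun a => ?_⟩
  have h := greedy_count (count a.1 a.2.1 a.2.2) (MM a.1 + 1) ((count_le _ _ _).trans_lt
    (Nat.pow_lt_pow_right (by norm_num) (by omega)))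
    (fun l => decide (query a.1 a.2.1 a.2.2 (cand (MM a.1 + 1) l) ∈ Orc)) (fun l hl => by
      simp only [query_mem _ _ _ _ (cand_pos _ _) (cand_lt _ _ hl)])
  simp only [h]

open Classical in
theorem opt_decision : OPT (fun y => decide (y ∈ Orc))
    (fun z : List Bool => decision (fstP z) (msb (sndP z) 0)) := by
  have h1 : OPT (fun y => decide (y ∈ Orc))
      (fun a : (List Bool × ℕ) × List Bool => round a.1.1 a.1.2 a.2) :=
    ((opt_count.pre (h := fun a : (List Bool × ℕ) × List Bool => (a.1.1, a.1.2, expo a.1.1 a.2))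
      (by fun_prop)).post (g := fun b => bif Nat.blt b.1.2.length (2 * tt b.1.1.1) then
        small b.1.1.1 b.1.1.2 b.2 else posb b.1.1.1 b.1.1.2 b.2) (by fun_prop)).of_eq
      (fun _ => by simp only [round])
  have h2 := h1.loop (M := fun a => 2 * tt a.1 + 1) (by fun_prop)
    (((PB.const 2).mul (ps_tt (x := fun a : List Bool × ℕ => a.1) (by fun_prop))).add (PB.const 1))
  have h3 := h2.post (g := fun b => validStr b.1.1 && b.2.getD (2 * tt b.1.1) false) (by fun_prop)
  exact (h3.pre (h := fun z : List Bool => (fstP z, msb (sndP z) 0)) (by fun_prop)).of_eq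
    (fun _ => rfl)

end Pool.Agent.P.MP_d7de43_lc
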